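import Pool.Agent.Lib.helper82.Parse

/-! The Cook-Levin theorem for the class `NP` of the prelude. -/

namespace Pool.Agent.Lib.helper82

open Function N487b59b3 Computability

attribute [local irreducible] tag

theorem scan_count {β : Type} : ∀ (l : List β) (n : ℕ),
    PT.scan (fun (k : ℕ) (_ : β) => k + 1) n l = (l.zipIdx n).map fun p => (p.2, p.1)
  | [], _ => rfl
  | b :: l, n => by simp [PT.scan, scan_count l (n + 1)]

theorem PT.enum {α β : Type} [Enc α] [Enc β] [Inhabited β] {f : α → List β} (hf : PT f) :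
    PT fun a => (f a).zipIdx.map fun p => (p.2, p.1) :=
  (PT.scan_pt (h := fun (k : ℕ) (_ : β) => k + 1) hf (PT.const 0) (PT.succ PT.fst') 2
    (fun s _ => by
      have := PT.sz_add_le s 1
      have h3 : sz (1 : ℕ) = 1 := by rw [sz_nat]; rfl
      omega)).congr fun a => scan_count _ _

theorem PT.range {α β : Type} [Enc α] [Enc β] [Inhabited β] {f : α → List β} (hf : PT f) :
    PT fun a => List.range (f a).length :=
  (PT.map (F := fun _ (p : ℕ × β) => p.1) (PT.enum hf) (PT.fst PT.snd')).congr fun a => by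
    apply List.ext_getElem <;> simp

namespace CL

def tst : List Prog → ℕ
  | .case r _ _ _ :: _ => r
  | .loop r _ :: _ => r
  | _ => 0

def nxt : List Prog → Option Bool → List Prog
  | [], _ => []
  | .skip :: k, _ => k
  | .push _ _ :: k, _ => k
  | .pop _ :: k, _ => k
  | .seq p q :: k, _ => p :: q :: k
  | .case _ e _ _ :: k, none => e :: k
  | .case _ _ f _ :: k, some false => f :: k
  | .case _ _ _ t :: k, some true => t :: k
  | .loop _ _ :: k, none => k
  | .loop r b :: k, some _ => b :: .loop r b :: k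

/-- `none`: keep, `some none`: pop, `some (some b)`: push `b`. -/
def act : List Prog → ℕ → Option (Option Bool)
  | .push r b :: _, r' => if r' = r then some (some b) else none
  | .pop r :: _, r' => if r' = r then some none else none
  | _, _ => none

def app : Option (Option Bool) → Bits → Bits
  | none, l => l
  | some none, l => l.tail
  | some (some b), l => b :: l

def sstep (c : List Prog × St) : List Prog × St :=
  (nxt c.1 (c.2 (tst c.1))[0]?, fun r => app (act c.1 r) (c.2 r))

theorem exec_sstep {p : Prog} {S S' : St} {n : ℕ} (h : Exec p S S' n) :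
    ∀ k, sstep^[n] (p :: k, S) = (k, S') := by
  induction h with
  | skip S => intro k; rfl
  | push r b S =>
    intro k
    refine Prod.ext rfl (funext fun r' => ?_)
    by_cases h : r' = r <;> simp [sstep, act, app, h]
  | pop r S =>
    intro k
    refine Prod.ext rfl (funext fun r' => ?_)
    by_cases h : r' = r <;> simp [sstep, act, app, h]
  | @seq p q S S' S'' n m _ _ ih1 ih2 =>
    intro k
    rw [Function.iterate_succ_apply, add_comm, Function.iterate_add_apply]
    exact (congrArg _ (ih1 (q :: k))).trans (ih2 k)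
  | @caseE r e f t S S' n hh _ ih =>
    intro k
    rw [Function.iterate_succ_apply, ← ih k]
    congr 1
    rw [List.head?_eq_getElem?] at hh
    simp only [sstep, tst, hh]; rfl
  | @caseF r e f t S S' n hh _ ih =>
    intro k
    rw [Function.iterate_succ_apply, ← ih k]
    congr 1
    rw [List.head?_eq_getElem?] at hh
    simp only [sstep, tst, hh]; rfl
  | @caseT r e f t S S' n hh _ ih =>
    intro k
    rw [Function.iterate_succ_apply, ← ih k]
    congr 1
    rw [List.head?_eq_getElem?] at hh
    simp only [sstep, tst, hh]; rfl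
  | @loopE r b S hh =>
    intro k
    simp only [Function.iterate_one, sstep, tst, hh]; rfl
  | @loopN r b S S' S'' n m hh _ _ ih1 ih2 =>
    intro k
    obtain ⟨x, l, hx⟩ := List.exists_cons_of_ne_nil hh
    have e : sstep (.loop r b :: k, S) = (b :: .loop r b :: k, S) := by
      simp only [sstep, tst, hx]; rfl
    rw [Function.iterate_succ_apply, e, add_comm, Function.iterate_add_apply, ih1, ih2]

theorem nxt_mem (p : Prog) : ∀ (k l : List Prog) (v : Option Bool), l ∈ p.labels k →
    (nxt l v ∈ p.labels k ∨ nxt l v = k) ∧ tst l ≤ p.regs := by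
  induction p with
  | skip => intro k l v h; obtain rfl : l = _ := by simpa [Prog.labels] using h
            exact ⟨Or.inr rfl, by simp [tst]⟩
  | push r b => intro k l v h; obtain rfl : l = _ := by simpa [Prog.labels] using h
                exact ⟨Or.inr rfl, by simp [tst]⟩
  | pop r => intro k l v h; obtain rfl : l = _ := by simpa [Prog.labels] using h
             exact ⟨Or.inr rfl, by simp [tst]⟩
  | seq p q ihp ihq =>
    intro k l v h
    simp only [Prog.labels, List.mem_cons, List.mem_append, Prog.regs, le_max_iff] at h ⊢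
    rcases h with rfl | h | h
    · exact ⟨Or.inl (Or.inr (Or.inl (p.self_mem_labels _))), by simp [tst]⟩
    · obtain ⟨h1 | h1, h2⟩ := ihp _ l v h
      · exact ⟨Or.inl (Or.inr (Or.inl h1)), Or.inl h2⟩
      · exact ⟨Or.inl (Or.inr (Or.inr (h1 ▸ q.self_mem_labels _))), Or.inl h2⟩
    · obtain ⟨h1 | h1, h2⟩ := ihq _ l v h
      · exact ⟨Or.inl (Or.inr (Or.inr h1)), Or.inr h2⟩
      · exact ⟨Or.inr h1, Or.inr h2⟩
  | case r e f t ihe ihf iht =>
    intro k l v h
    simp only [Prog.labels, List.mem_cons, List.mem_append, Prog.regs, le_max_iff] at h ⊢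
    rcases h with rfl | (h | h) | h
    · refine ⟨Or.inl (Or.inr ?_), by simp [tst]⟩
      rcases v with _ | _ | _
      · exact Or.inl (Or.inl (e.self_mem_labels _))
      · exact Or.inl (Or.inr (f.self_mem_labels _))
      · exact Or.inr (t.self_mem_labels _)
    · obtain ⟨h1, h2⟩ := ihe _ l v h
      exact ⟨h1.imp_left fun h1 => Or.inr (Or.inl (Or.inl h1)), Or.inr (Or.inl h2)⟩
    · obtain ⟨h1, h2⟩ := ihf _ l v h
      exact ⟨h1.imp_left fun h1 => Or.inr (Or.inl (Or.inr h1)), Or.inr (Or.inr (Or.inl h2))⟩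
    · obtain ⟨h1, h2⟩ := iht _ l v h
      exact ⟨h1.imp_left fun h1 => Or.inr (Or.inr h1), Or.inr (Or.inr (Or.inr h2))⟩
  | loop r b ih =>
    intro k l v h
    simp only [Prog.labels, List.mem_cons, Prog.regs, le_max_iff] at h ⊢
    rcases h with rfl | h
    · refine ⟨?_, by simp [tst]⟩
      rcases v with _ | v
      · exact Or.inr rfl
      · exact Or.inl (Or.inr (b.self_mem_labels _))
    · obtain ⟨h1 | h1, h2⟩ := ih _ l v h
      · exact ⟨Or.inl (Or.inr h1), Or.inr h2⟩
      · exact ⟨Or.inl (Or.inl h1), Or.inr h2⟩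

def code : Option Bool → ℕ
  | none => 0
  | some false => 1
  | some true => 2

theorem code_inj {u v : Option Bool} (h : code u = code v) : u = v := by
  rcases u with _ | _ | _ <;> rcases v with _ | _ | _ <;> simp_all [code]

def vals : List (Option Bool) := [none, some false, some true]

theorem mem_vals (v : Option Bool) : v ∈ vals := by rcases v with _ | _ | _ <;> simp [vals]

def sh1 : Option (Option Bool) → ℕ
  | some none => 1
  | _ => 0

def sh2 : Option (Option Bool) → ℕ
  | some (some _) => 1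
  | _ => 0

theorem app_get (a : Option (Option Bool)) (l : Bits) (i : ℕ) :
    (app a l)[i + sh2 a]? = l[i + sh1 a]? := by
  rcases a with _ | _ | b <;> simp [app, sh1, sh2]

def var (t r i c : ℕ) : ℕ := tag true (t, r, i, c)

variable (P : Prog)

def labs : List (List Prog) := [] :: P.labels []

open Classical in
noncomputable def idx (k : List Prog) : ℕ := (labs P).idxOf k

theorem idx_inj {k k' : List Prog} (h : k ∈ labs P) (e : idx P k = idx P k') : k = k' := by
  classical
  exact (List.idxOf_inj h).1 e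

theorem nxt_labs {k : List Prog} (h : k ∈ labs P) (v : Option Bool) :
    nxt k v ∈ labs P ∧ tst k ≤ P.regs := by
  rcases List.mem_cons.1 h with rfl | h
  · exact ⟨List.mem_cons_self, Nat.zero_le _⟩
  · obtain ⟨h1 | h1, h2⟩ := nxt_mem P [] k v h
    · exact ⟨List.mem_cons_of_mem _ h1, h2⟩
    · exact ⟨h1 ▸ List.mem_cons_self, h2⟩

noncomputable def tabC : List (ℕ × ℕ × ℕ × ℕ) :=
  (labs P).flatMap fun k => vals.map fun v => (idx P k, tst k + 1, code v, idx P (nxt k v))

noncomputable def tabS : List (ℕ × ℕ × ℕ × ℕ × ℕ) :=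
  (labs P).flatMap fun k => (List.range (P.regs + 2)).flatMap fun r => vals.map fun v =>
    (idx P k, r + 1, sh1 (act k r), sh2 (act k r), code v)

noncomputable def tabP : List (ℕ × ℕ × ℕ) :=
  (labs P).flatMap fun k => (List.range (P.regs + 2)).flatMap fun r => [false, true].flatMap fun b =>
    if act k r = some (some b) then [(idx P k, r + 1, code (some b))] else []

def imp (a b c : ℕ) : List (ℕ × Bool) := [(a, false), (b, false), (c, true)]

def ini (pre m T : List Bool) : List (ℕ × ℕ) :=
  (pre.map fun b => (code (some b), code (some b))) ++ ((m.map fun _ => (1, 2)) ++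
    ((0, 0) :: T.map fun _ => (0, 0)))

noncomputable def stepCl (W : List ℕ) (t : ℕ) : List (List (ℕ × Bool)) :=
  ((tabC P).map fun e => imp (var t 0 e.1 0) (var t e.2.1 0 e.2.2.1) (var (t + 1) 0 e.2.2.2 0)) ++
  (((tabP P).map fun e => imp (var t 0 e.1 0) (var t 0 e.1 0) (var (t + 1) e.2.1 0 e.2.2)) ++
  (W.flatMap fun i => (tabS P).map fun e => imp (var t 0 e.1 0)
    (var t e.2.1 (i + e.2.2.1) e.2.2.2.2) (var (t + 1) e.2.1 (i + e.2.2.2.1) e.2.2.2.2)))

def tri (a b : ℕ) (s : Bool) : List (ℕ × Bool) := [(a, s), (b, s), (b, s)]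

noncomputable def cnf (pre m T : List Bool) : List (List (ℕ × Bool)) :=
  tri (var 0 0 (idx P [P]) 0) (var 0 0 (idx P [P]) 0) true ::
  tri (var T.length 2 0 1) (var T.length 2 0 1) false ::
  (((((ini pre m T).zipIdx.map fun p => (p.2, p.1)).map fun e =>
    tri (var 0 1 e.1 e.2.1) (var 0 1 e.1 e.2.2) true) ++
  ((List.range (ini pre m T).length).flatMap fun i => (List.range (P.regs + 1)).map fun r =>
    tri (var 0 (r + 2) i 0) (var 0 (r + 2) i 0) true)) ++
  (List.range T.length).flatMap (stepCl P (List.range (ini pre m T).length)))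

section PTs
variable {α : Type} [Enc α]

theorem var_pt {t r i c : α → ℕ} (ht : PT t) (hr : PT r) (hi : PT i) (hc : PT c) :
    PT fun a => var (t a) (r a) (i a) (c a) :=
  PT.tag true (PT.pair ht (PT.pair hr (PT.pair hi hc)))

theorem imp_pt {x y z : α → ℕ} (hx : PT x) (hy : PT y) (hz : PT z) :
    PT fun a => imp (x a) (y a) (z a) :=
  PT.cons (PT.pair hx (PT.const false)) (PT.cons (PT.pair hy (PT.const false))
    (PT.cons (PT.pair hz (PT.const true)) (PT.const [])))

theorem tri_pt {x y : α → ℕ} (hx : PT x) (hy : PT y) (s : Bool) :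
    PT fun a => tri (x a) (y a) s :=
  PT.cons (PT.pair hx (PT.const s)) (PT.cons (PT.pair hy (PT.const s))
    (PT.cons (PT.pair hy (PT.const s)) (PT.const [])))

theorem ini_pt {pre m T : α → List Bool} (h1 : PT pre) (h2 : PT m) (h3 : PT T) :
    PT fun a => ini (pre a) (m a) (T a) :=
  PT.append (PT.map (F := fun _ b => (code (some b), code (some b))) h1
      (PT.comp (PT.ofFintype fun b : Bool => (code (some b), code (some b))) PT.snd'))
    (PT.append (PT.map (F := fun _ _ => ((1, 2) : ℕ × ℕ)) h2 (PT.const _))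
      (PT.cons (PT.const _) (PT.map (F := fun _ _ => ((0, 0) : ℕ × ℕ)) h3 (PT.const _))))

theorem stepCl_pt : PT fun a : List ℕ × ℕ => stepCl P a.1 a.2 := by
  have z {β : Type} [Enc β] : PT fun _ : β => (0 : ℕ) := PT.const 0
  have h1 : PT fun p : (List ℕ × ℕ) × (ℕ × ℕ × ℕ × ℕ) => imp (var p.1.2 0 p.2.1 0)
      (var p.1.2 p.2.2.1 0 p.2.2.2.1) (var (p.1.2 + 1) 0 p.2.2.2.2 0) :=
    imp_pt (var_pt (PT.snd PT.fst') z (PT.fst PT.snd') z)
      (var_pt (PT.snd PT.fst') (PT.fst (PT.snd PT.snd')) z (PT.fst (PT.snd (PT.snd PT.snd'))))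
      (var_pt (PT.succ (PT.snd PT.fst')) z (PT.snd (PT.snd (PT.snd PT.snd'))) z)
  have h2 : PT fun p : (List ℕ × ℕ) × (ℕ × ℕ × ℕ) => imp (var p.1.2 0 p.2.1 0)
      (var p.1.2 0 p.2.1 0) (var (p.1.2 + 1) p.2.2.1 0 p.2.2.2) :=
    imp_pt (var_pt (PT.snd PT.fst') z (PT.fst PT.snd') z)
      (var_pt (PT.snd PT.fst') z (PT.fst PT.snd') z)
      (var_pt (PT.succ (PT.snd PT.fst')) (PT.fst (PT.snd PT.snd')) z (PT.snd (PT.snd PT.snd')))
  have he : PT fun p : ((List ℕ × ℕ) × ℕ) × (ℕ × ℕ × ℕ × ℕ × ℕ) => p.2.2.2 :=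
    PT.snd (PT.snd PT.snd')
  have h3 : PT fun p : ((List ℕ × ℕ) × ℕ) × (ℕ × ℕ × ℕ × ℕ × ℕ) => imp (var p.1.1.2 0 p.2.1 0)
      (var p.1.1.2 p.2.2.1 (p.1.2 + p.2.2.2.1) p.2.2.2.2.2)
      (var (p.1.1.2 + 1) p.2.2.1 (p.1.2 + p.2.2.2.2.1) p.2.2.2.2.2) :=
    imp_pt (var_pt (PT.snd (PT.fst PT.fst')) z (PT.fst PT.snd') z)
      (var_pt (PT.snd (PT.fst PT.fst')) (PT.fst (PT.snd PT.snd'))
        (PT.add (PT.snd PT.fst') (PT.fst he)) (PT.snd (PT.snd he)))
      (var_pt (PT.succ (PT.snd (PT.fst PT.fst'))) (PT.fst (PT.snd PT.snd'))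
        (PT.add (PT.snd PT.fst') (PT.fst (PT.snd he))) (PT.snd (PT.snd he)))
  exact PT.append (PT.map (F := fun (a : List ℕ × ℕ) (e : ℕ × ℕ × ℕ × ℕ) =>
      imp (var a.2 0 e.1 0) (var a.2 e.2.1 0 e.2.2.1) (var (a.2 + 1) 0 e.2.2.2 0))
      (PT.const (tabC P)) h1)
    (PT.append (PT.map (F := fun (a : List ℕ × ℕ) (e : ℕ × ℕ × ℕ) =>
      imp (var a.2 0 e.1 0) (var a.2 0 e.1 0) (var (a.2 + 1) e.2.1 0 e.2.2))
      (PT.const (tabP P)) h2)
    (PT.flatMap (F := fun (a : List ℕ × ℕ) (i : ℕ) => (tabS P).map fun e => imp (var a.2 0 e.1 0)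
      (var a.2 e.2.1 (i + e.2.2.1) e.2.2.2.2) (var (a.2 + 1) e.2.1 (i + e.2.2.2.1) e.2.2.2.2))
      PT.fst' (PT.map (F := fun (a : (List ℕ × ℕ) × ℕ) (e : ℕ × ℕ × ℕ × ℕ × ℕ) =>
        imp (var a.1.2 0 e.1 0) (var a.1.2 e.2.1 (a.2 + e.2.2.1) e.2.2.2.2)
        (var (a.1.2 + 1) e.2.1 (a.2 + e.2.2.2.1) e.2.2.2.2)) (PT.const (tabS P)) h3)))

theorem cnf_pt {pre m T : α → List Bool} (h1 : PT pre) (h2 : PT m) (h3 : PT T) :
    PT fun a => cnf P (pre a) (m a) (T a) := by
  have hi := ini_pt h1 h2 h3
  have hT : PT fun a => var (T a).length 2 0 1 :=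
    var_pt (PT.length h3) (PT.const 2) (PT.const 0) (PT.const 1)
  have h4 : PT fun p : α × ℕ × ℕ × ℕ => tri (var 0 1 p.2.1 p.2.2.1) (var 0 1 p.2.1 p.2.2.2) true :=
    tri_pt (var_pt (PT.const 0) (PT.const 1) (PT.fst PT.snd') (PT.fst (PT.snd PT.snd')))
      (var_pt (PT.const 0) (PT.const 1) (PT.fst PT.snd') (PT.snd (PT.snd PT.snd'))) true
  have h5 : PT fun p : (α × ℕ) × ℕ => var 0 (p.2 + 2) p.1.2 0 :=
    var_pt (PT.const 0) (PT.add PT.snd' (PT.const 2)) (PT.snd PT.fst') (PT.const 0)
  have h6 : PT fun p : α × ℕ => stepCl P (List.range (ini (pre p.1) (m p.1) (T p.1)).length) p.2 :=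
    (PT.comp (stepCl_pt P) (PT.pair (PT.comp (PT.range hi) (PT.fst' (β := ℕ))) PT.snd') :)
  exact PT.cons (PT.const _) (PT.cons (tri_pt hT hT false) (PT.append (PT.append
    (PT.map (F := fun _ (e : ℕ × ℕ × ℕ) => tri (var 0 1 e.1 e.2.1) (var 0 1 e.1 e.2.2) true)
      (PT.enum hi) h4)
    (PT.flatMap (F := fun _ (i : ℕ) => (List.range (P.regs + 1)).map fun r =>
      tri (var 0 (r + 2) i 0) (var 0 (r + 2) i 0) true) (PT.range hi)
      (PT.map (F := fun (a : α × ℕ) (r : ℕ) => tri (var 0 (r + 2) a.2 0) (var 0 (r + 2) a.2 0) true)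
        (PT.const _) (tri_pt h5 h5 true))))
    (PT.flatMap (F := fun a t => stepCl P (List.range (ini (pre a) (m a) (T a)).length) t)
      (PT.range h3) h6)))

end PTs

def SatBy (a : ℕ → Bool) (φ : List (List (ℕ × Bool))) : Prop := ∀ C ∈ φ, ∃ l ∈ C, a l.1 = l.2

theorem sat_imp (a : ℕ → Bool) (x y z : ℕ) :
    (∃ l ∈ imp x y z, a l.1 = l.2) ↔ (a x = true → a y = true → a z = true) := by
  cases h1 : a x <;> cases h2 : a y <;> simp [imp, h1, h2]

theorem sat_tri (a : ℕ → Bool) (x y : ℕ) (s : Bool) :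
    (∃ l ∈ tri x y s, a l.1 = l.2) ↔ (a x = s ∨ a y = s) := by simp [tri]

theorem satBy_stepCl (a : ℕ → Bool) (W t : ℕ) : SatBy a (stepCl P (List.range W) t) ↔
    ∀ k ∈ labs P, a (var t 0 (idx P k) 0) = true →
      (∀ v, a (var t (tst k + 1) 0 (code v)) = true → a (var (t + 1) 0 (idx P (nxt k v)) 0) = true) ∧
      ∀ r < P.regs + 2, (∀ b, act k r = some (some b) →
        a (var (t + 1) (r + 1) 0 (code (some b))) = true) ∧
        ∀ i < W, ∀ v, a (var t (r + 1) (i + sh1 (act k r)) (code v)) = true →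
          a (var (t + 1) (r + 1) (i + sh2 (act k r)) (code v)) = true := by
  simp only [SatBy, stepCl, List.forall_mem_append, List.forall_mem_map, List.forall_mem_flatMap,
    sat_imp, tabC, tabP, tabS, List.mem_range]
  constructor
  · rintro ⟨h1, h2, h3⟩ k hk ha
    refine ⟨fun v => h1 k hk v (mem_vals v) ha, fun r hr => ⟨fun b hb => ?_, fun i hi v =>
      h3 i hi k hk r hr v (mem_vals v) ha⟩⟩
    exact h2 k hk r hr b (by cases b <;> simp) (idx P k, r + 1, code (some b)) (by simp [hb]) ha ha
  · intro h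
    refine ⟨fun k hk v _ ha => (h k hk ha).1 v, fun k hk r hr b _ e he ha _ => ?_,
      fun i hi k hk r hr v _ ha => ((h k hk ha).2 r hr).2 i hi v⟩
    split_ifs at he with hb
    · obtain rfl := List.mem_singleton.1 he
      exact ((h k hk ha).2 r hr).1 b hb
    · simp at he

theorem satBy_cnf (a : ℕ → Bool) (pre m T : List Bool) : SatBy a (cnf P pre m T) ↔
    a (var 0 0 (idx P [P]) 0) = true ∧ a (var T.length 2 0 1) = false ∧
    (∀ i e, (ini pre m T)[i]? = some e → a (var 0 1 i e.1) = true ∨ a (var 0 1 i e.2) = true) ∧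
    (∀ i < (ini pre m T).length, ∀ r < P.regs + 1, a (var 0 (r + 2) i 0) = true) ∧
    ∀ t < T.length, SatBy a (stepCl P (List.range (ini pre m T).length) t) := by
  simp only [SatBy, cnf, List.forall_mem_cons, List.forall_mem_append, List.forall_mem_map,
    List.forall_mem_flatMap, sat_tri, or_self, List.mem_range, and_assoc]
  refine and_congr_right' (and_congr_right' (and_congr_left' ?_))
  exact ⟨fun h i e he => h (e, i) (List.mk_mem_zipIdx_iff_getElem?.2 he),
    fun h p hp => h p.2 p.1 (List.mem_zipIdx_iff_getElem?.1 hp)⟩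

theorem length_cnf (pre m T : List Bool) : ∀ C ∈ cnf P pre m T, C.length = 3 := by
  simp only [cnf, stepCl, List.forall_mem_cons, List.forall_mem_append, List.forall_mem_map,
    List.forall_mem_flatMap, tri, imp]
  simp

theorem ini_get (pre m T u : List Bool) (hu : u.length = m.length) (i : ℕ) (e : ℕ × ℕ)
    (h : (ini pre m T)[i]? = some e) :
    (code (pre ++ u)[i]? = e.1 ∧ e.1 = e.2) ∨
      (pre.length ≤ i ∧ i < pre.length + m.length ∧ e = (1, 2)) := by
  unfold ini at h
  by_cases h1 : i < pre.length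
  · rw [List.getElem?_append_left (by simpa using h1)] at h
    left
    rw [List.getElem?_append_left h1]
    simp only [List.getElem?_map, List.getElem?_eq_getElem h1, Option.map_some,
      Option.some.injEq] at h ⊢
    subst h; exact ⟨rfl, rfl⟩
  · rw [List.getElem?_append_right (by simpa using h1), List.length_map] at h
    by_cases h2 : i < pre.length + m.length
    · rw [List.getElem?_append_left (by simp; omega)] at h
      obtain ⟨_, _, rfl⟩ := List.mem_map.1 (List.mem_of_getElem? h)
      exact Or.inr ⟨by omega, h2, rfl⟩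
    · rw [List.getElem?_append_right (by simp; omega)] at h
      have : e = (0, 0) := by
        rcases List.mem_cons.1 (List.mem_of_getElem? h) with h | h
        · exact h
        · obtain ⟨_, _, rfl⟩ := List.mem_map.1 h; rfl
      subst this
      left
      rw [List.getElem?_eq_none (by simp; omega)]
      exact ⟨rfl, rfl⟩

theorem labs_iter (S : St) (t : ℕ) : (sstep^[t] ([P], S)).1 ∈ labs P := by
  induction t with
  | zero => exact List.mem_cons_of_mem _ (P.self_mem_labels [])
  | succ t ih => rw [Function.iterate_succ_apply']; exact (nxt_labs P ih _).1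

theorem sat_iff (pre m T : List Bool) (R : List Bool → Bool)
    (hR : ∀ u : List Bool, u.length = m.length →
      ((sstep^[T.length] ([P], update (fun _ => []) 0 (pre ++ u))).2 1)[0]? = some (R u)) :
    (∃ a, SatBy a (cnf P pre m T)) ↔ ∃ u : List Bool, u.length = m.length ∧ R u = true := by
  classical
  constructor
  · rintro ⟨a, ha⟩
    rw [satBy_cnf] at ha
    obtain ⟨h1, h2, h3, h4, h5⟩ := ha
    let u : List Bool := List.ofFn fun j : Fin m.length => a (var 0 1 (pre.length + j) 2)
    have hu : u.length = m.length := by simp [u]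
    refine ⟨u, hu, ?_⟩
    set W := (ini pre m T).length with hW
    have hWT : T.length < W := by simp [hW, ini]; omega
    set S₀ : St := update (fun _ => []) 0 (pre ++ u) with hS
    have key : ∀ t ≤ T.length, a (var t 0 (idx P (sstep^[t] ([P], S₀)).1) 0) = true ∧
        ∀ r < P.regs + 2, ∀ i, i + t < W →
          a (var t (r + 1) i (code ((sstep^[t] ([P], S₀)).2 r)[i]?)) = true := by
      intro t
      induction t with
      | zero =>
        refine fun _ => ⟨h1, fun r hr i hi => ?_⟩
        rcases r with _ | r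
        · have h6 := List.getElem?_eq_getElem (l := ini pre m T) (i := i) hi
          have h7 := h3 i _ h6
          simp only [Function.iterate_zero, id, hS, update_self]
          rcases ini_get pre m T u hu i _ h6 with ⟨h8, h9⟩ | ⟨h8, h9, h10⟩
          · rw [h8]; rw [← h9, or_self] at h7; exact h7
          · rw [h10] at h7
            have : (pre ++ u)[i]? = some (a (var 0 1 i 2)) := by
              rw [List.getElem?_append_right h8, List.getElem?_eq_getElem (by omega)]
              simp [u, h8]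
            rw [this]
            cases h11 : a (var 0 1 i 2)
            · simpa [h11, code] using h7
            · exact h11
        · simpa [hS, code] using h4 i hi r (by omega)
      | succ t ih =>
        intro ht
        obtain ⟨ih1, ih2⟩ := ih (by omega)
        have hk := labs_iter P S₀ t
        rw [Function.iterate_succ_apply']
        generalize sstep^[t] ([P], S₀) = c at *
        obtain ⟨h6, h7⟩ := (satBy_stepCl P a W t).1 (h5 t ht) c.1 hk ih1
        refine ⟨h6 _ (ih2 _ (by have := (nxt_labs P hk none).2; omega) 0 (by omega)),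
          fun r hr i hi => ?_⟩
        obtain ⟨h8, h9⟩ := h7 r hr
        simp only [sstep]
        by_cases hi' : sh2 (act c.1 r) ≤ i
        · obtain ⟨j, rfl⟩ := Nat.exists_eq_add_of_le' hi'
          rw [app_get]
          refine h9 j (by omega) _ (ih2 r hr _ ?_)
          have : sh1 (act c.1 r) ≤ 1 := by rcases act c.1 r with _ | _ | _ <;> simp [sh1]
          omega
        · rcases e : act c.1 r with _ | _ | b <;> simp only [e, sh2] at hi'
          · omega
          · omega
          · obtain rfl : i = 0 := by omega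
            exact h8 b e
    have h6 := (key _ le_rfl).2 1 (by omega) 0 (by omega)
    rw [hR u hu] at h6
    cases h7 : R u
    · rw [h7] at h6
      exact absurd (h6.symm.trans h2) (by simp)
    · rfl
  · rintro ⟨u, hu, hRu⟩
    set S₀ : St := update (fun _ => []) 0 (pre ++ u) with hS
    let sem : ℕ × ℕ × ℕ × ℕ → Prop := fun e => if e.2.1 = 0 then
      idx P (sstep^[e.1] ([P], S₀)).1 = e.2.2.1 else
      code ((sstep^[e.1] ([P], S₀)).2 (e.2.1 - 1))[e.2.2.1]? = e.2.2.2
    let a : ℕ → Bool := fun n => decide (∃ e, tag true e = n ∧ sem e)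
    have ha : ∀ t r i c, a (var t r i c) = true ↔ sem (t, r, i, c) := by
      intro t r i c
      simp only [a, var, decide_eq_true_eq, (tag_injective true).eq_iff]
      simp
    have ha0 : ∀ t i, a (var t 0 i 0) = true ↔ idx P (sstep^[t] ([P], S₀)).1 = i :=
      fun t i => by rw [ha]; simp [sem]
    have ha1 : ∀ t r i c, a (var t (r + 1) i c) = true ↔
        code ((sstep^[t] ([P], S₀)).2 r)[i]? = c := fun t r i c => by rw [ha]; simp [sem]
    refine ⟨a, (satBy_cnf P a pre m T).2 ⟨(ha0 _ _).2 rfl, ?_, ?_, ?_, ?_⟩⟩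
    · rw [← Bool.not_eq_true, ha1 _ 1, hR u hu, hRu]; simp [code]
    · intro i e he
      rw [ha1 0 0, ha1 0 0]
      simp only [Function.iterate_zero, id, hS, update_self]
      rcases ini_get pre m T u hu i _ he with ⟨h8, _⟩ | ⟨h8, h9, rfl⟩
      · exact Or.inl h8
      · rw [List.getElem?_eq_getElem (by simp; omega)]
        cases (pre ++ u)[i]'(by simp; omega) <;> simp [code]
    · intro i _ r _
      rw [ha1 0 (r + 1)]
      simp [hS, code]
    · intro t _
      rw [satBy_stepCl]
      intro k hk h1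
      obtain rfl := idx_inj P (labs_iter P S₀ t) ((ha0 _ _).1 h1)
      simp only [ha0, ha1, Function.iterate_succ_apply']
      generalize sstep^[t] ([P], S₀) = c
      refine ⟨fun v hv => by rw [← code_inj hv]; rfl, fun r _ => ⟨fun b hb => ?_, fun i _ v hv => ?_⟩⟩
      · simp [sstep, hb, app]
      · simp only [sstep]
        rw [app_get, hv]

theorem two_mul_length_ufst : ∀ x : Bits, 2 * (ufst x).length ≤ x.length
  | [] => by simp [ufst]
  | [true] => by simp [ufst]
  | false :: l => by simp [ufst]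
  | true :: _ :: l => by have := two_mul_length_ufst l; simp [ufst]; omega

end CL

/-- Every language in `NP` reduces in polynomial time to satisfiability of 3-CNF formulas. -/
theorem cook_levin {L : N68a2faeb.DecisionProblem} (hL : L ∈ N68a2faeb.NP) :
    ∃ F : List Bool → List (List (ℕ × Bool)), PT F ∧ ∀ x, (∀ C ∈ F x, C.length = 3) ∧
      (L x = true ↔ ∃ a : ℕ → Bool, ∀ C ∈ F x, ∃ l ∈ C, a l.1 = l.2) := by
  obtain ⟨p, R, hR, hL⟩ := hL
  have h1 : PT fun a : Raw × Raw => R (a.1.val, ufst a.2.val) :=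
    PT.comp (PT.ofIsPolyTime hR) (PT.pair (PT.comp PT.rawToList PT.fst')
      (PT.ufstL (PT.comp PT.rawToList PT.snd')))
  obtain ⟨T, ⟨q, hq⟩, h2⟩ := h1
  obtain ⟨P, hP⟩ := h2 0 1 2 (by omega) (by omega) (by omega)
  have hpre : PT fun x : List Bool => (delimit x : List Bool) :=
    (PT.comp PT.encList (PT.pair PT.listToRaw (PT.const (⟨[]⟩ : Raw)))).congr fun x => by
      rw [enc_prod]; simp [enc_raw]
  have hm := PT.clock (l := fun x : List Bool => x) PT.id (2 * p + 1)
  have hT := PT.clock (PT.append hpre hm) q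
  refine ⟨_, CL.cnf_pt P hpre hm hT, fun x => ⟨CL.length_cnf P _ _ _, ?_⟩⟩
  refine Iff.trans ?_ (CL.sat_iff P _ _ _ (fun u => R (x, ufst u)) fun u hu => ?_).symm
  · rw [hL]
    simp only [List.length_replicate, Polynomial.eval_add, Polynomial.eval_mul,
      Polynomial.eval_ofNat, Polynomial.eval_one]
    constructor
    · rintro ⟨w, h3, h4⟩
      refine ⟨delimit w ++ List.replicate (2 * (p.eval x.length - w.length)) true, ?_, by simpa⟩
      simp; omega
    · rintro ⟨u, h3, h4⟩
      exact ⟨ufst u, by have := CL.two_mul_length_ufst u; omega, h4⟩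
  · obtain ⟨n, hn, h3⟩ := hP (⟨x⟩, ⟨u⟩) (update (fun _ => []) 0 (delimit x ++ u)) (by simp; rfl)
      (fun r hr => by
        have : r ≠ 0 := by omega
        simp [this]) (by simp)
    have h4 := hq (⟨x⟩, ⟨u⟩)
    have h5 : (enc ((⟨x⟩, ⟨u⟩) : Raw × Raw)).length =
        (delimit x ++ List.replicate ((2 * p + 1).eval x.length) true).length := by
      rw [enc_prod, List.length_append, List.length_append, enc_raw, enc_raw, hu]
    simp only [h5] at h4
    rw [List.length_replicate]
    obtain ⟨j, hj⟩ := Nat.exists_eq_add_of_le' (hn.trans h4)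
    rw [hj, Function.iterate_add_apply, CL.exec_sstep h3 [],
      Function.iterate_fixed (f := CL.sstep) rfl]
    simp [enc_bool]

end Pool.Agent.Lib.helper82
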