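import Pool.Agent.Lib.helper82.PTU
import Pool.Prelude.Def_H_3587d628

/-! Typed polynomial time functions, for the bit string encodings of the prelude. -/

namespace Pool.Agent.Lib.helper82

open Function N487b59b3 Computability

abbrev Enc (α : Type) := N487b59b3 α

abbrev enc {α : Type} [Enc α] (a : α) : Bits := bitEncode a

abbrev sz {α : Type} [Enc α] (a : α) : ℕ := (enc a).length

/-- `F` is computable in polynomial time. -/
def PT {α β : Type} [Enc α] [Enc β] (F : α → β) : Prop :=
  PTR (fun a : α => enc a) fun a => enc (F a)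

section EncLemmas
variable {α β : Type} [Enc α] [Enc β]

theorem enc_prod (a : α) (b : β) : enc (a, b) = delimit (enc a) ++ enc b := rfl
theorem enc_prod' (p : α × β) : enc p = delimit (enc p.1) ++ enc p.2 := rfl
theorem enc_nil : enc ([] : List α) = [] := rfl
theorem enc_cons (a : α) (l : List α) : enc (a :: l) = delimit (enc a) ++ enc l := rfl
theorem enc_bool (b : Bool) : enc b = [b] := rfl
theorem enc_nat (n : ℕ) : enc n = encodeNat n := rfl
theorem enc_append (l l' : List α) : enc (l ++ l') = enc l ++ enc l' := by
  induction l with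
  | nil => simp [enc_nil]
  | cons a l ih => simp [enc_cons, ih]
theorem enc_injective : Injective (enc : α → Bits) := bitEncode_injective

theorem sz_prod (a : α) (b : β) : sz (a, b) = 2 * sz a + 1 + sz b := by simp [sz, enc_prod]
theorem sz_nil : sz ([] : List α) = 0 := rfl
theorem sz_cons (a : α) (l : List α) : sz (a :: l) = 2 * sz a + 1 + sz l := by
  simp [sz, enc_cons]
theorem sz_append (l l' : List α) : sz (l ++ l') = sz l + sz l' := by simp [sz, enc_append]
theorem sz_bool (b : Bool) : sz b = 1 := rfl
theorem length_le_sz (l : List α) : l.length ≤ sz l := by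
  induction l with
  | nil => simp
  | cons a l ih => rw [sz_cons, List.length_cons]; omega
theorem sz_le_of_mem {l : List α} {a : α} (h : a ∈ l) : sz a ≤ sz l := by
  induction l with
  | nil => simp at h
  | cons b l ih =>
    rw [sz_cons]
    rcases List.mem_cons.1 h with rfl | h
    · omega
    · have := ih h; omega
theorem sz_drop_le (l : List α) (k : ℕ) : sz (l.drop k) ≤ sz l := by
  have := sz_append (l.take k) (l.drop k)
  rw [List.take_append_drop] at this
  omega
theorem sz_tail_le (l : List α) : sz l.tail ≤ sz l := by
  simpa using sz_drop_le l 1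

end EncLemmas

/-- Bit strings encoded by themselves. -/
structure Raw where
  val : Bits

instance : Enc Raw where
  encode r := r.val
  decode l := some ⟨l⟩
  decode_encode _ := rfl

theorem enc_raw (r : Raw) : enc r = r.val := rfl

namespace PT
variable {α β γ δ σ : Type} [Enc α] [Enc β] [Enc γ] [Enc δ] [Enc σ]

theorem toTM2 {F : α → β} (h : PT F) :
    Nonempty (Turing.TM2ComputableInPolyTime (enc : α → Bits) (enc : β → Bits) F) :=
  PTR.toTM2 h

theorem isPolyTime {F : α → β} (h : PT F) : N68a2faeb.IsPolyTime F := PTR.toTM2 h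

theorem sz_bd {F : α → β} (h : PT F) : Bd sz fun a => sz (F a) := PTR.length_bd h

theorem congr {F G : α → β} (h : PT F) (e : ∀ a, F a = G a) : PT G := by
  have : F = G := funext e
  exact this ▸ h

theorem id : PT fun a : α => a := PTR.id

theorem comp {G : β → γ} {F : α → β} (hG : PT G) (hF : PT F) : PT fun a => G (F a) :=
  PTR.comp (F := F) hG hF

theorem constB {α : Type} {ea : α → Bits} : ∀ w : Bits, PTR ea fun _ => w
  | [] => PTR.nil
  | b :: w => PTR.cons b (constB w)

theorem const (b : β) : PT fun _ : α => b := constB _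

theorem pair {F : α → β} {G : α → γ} (hF : PT F) (hG : PT G) : PT fun a => (F a, G a) :=
  PTR.pair hF hG

theorem fst {F : α → β × γ} (hF : PT F) : PT fun a => (F a).1 :=
  (PTR.fst hF).congr fun a => by rw [enc_prod', ufst_delimit]

theorem snd {F : α → β × γ} (hF : PT F) : PT fun a => (F a).2 :=
  (PTR.snd hF).congr fun a => by rw [enc_prod', usnd_delimit]

theorem fst' : PT fun p : α × β => p.1 := fst id
theorem snd' : PT fun p : α × β => p.2 := snd id

theorem comp₂ {G : β → γ → δ} {F : α → β} {F' : α → γ} (hG : PT fun p : β × γ => G p.1 p.2)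
    (hF : PT F) (hF' : PT F') : PT fun a => G (F a) (F' a) :=
  comp hG (pair hF hF')

theorem cons {F : α → β} {G : α → List β} (hF : PT F) (hG : PT G) : PT fun a => F a :: G a :=
  PTR.pair hF hG

theorem append {F G : α → List β} (hF : PT F) (hG : PT G) : PT fun a => F a ++ G a :=
  (PTR.append hF hG).congr fun _ => (enc_append _ _).symm

theorem tail {F : α → List β} (hF : PT F) : PT fun a => (F a).tail :=
  (PTR.snd hF).congr fun a => by
    beta_reduce
    rcases F a with _ | ⟨b, l⟩
    · rfl
    · rw [enc_cons, usnd_delimit]; rfl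

theorem caseB_delimit (x y e f : Bits) : caseB (delimit x ++ y) e f f = f := by
  cases x <;> rfl

theorem headD {F : α → List β} (hF : PT F) (d : β) : PT fun a => (F a).headD d :=
  (PTR.case hF (constB (enc d)) (PTR.fst hF) (PTR.fst hF)).congr fun a => by
    beta_reduce
    rcases F a with _ | ⟨b, l⟩
    · rfl
    · rw [enc_cons, caseB_delimit, ufst_delimit]; rfl

theorem isEmpty {F : α → List β} (hF : PT F) : PT fun a => (F a).isEmpty :=
  (PTR.case hF (constB [true]) (constB [false]) (constB [false])).congr fun a => by
    beta_reduce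
    rcases F a with _ | ⟨b, l⟩
    · rfl
    · rw [enc_cons, caseB_delimit]; rfl

theorem cond {C : α → Bool} {F G : α → β} (hC : PT C) (hF : PT F) (hG : PT G) :
    PT fun a => bif C a then F a else G a :=
  (PTR.case hC PTR.nil hG hF).congr fun a => by beta_reduce; cases C a <;> rfl

theorem ite {C : α → Prop} [DecidablePred C] {F G : α → β} (hC : PT fun a => decide (C a))
    (hF : PT F) (hG : PT G) : PT fun a => if C a then F a else G a :=
  (cond hC hF hG).congr fun a => by by_cases h : C a <;> simp [h]

theorem and {F G : α → Bool} (hF : PT F) (hG : PT G) : PT fun a => F a && G a :=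
  (cond hF hG (const false)).congr fun a => by cases F a <;> rfl

theorem or {F G : α → Bool} (hF : PT F) (hG : PT G) : PT fun a => F a || G a :=
  (cond hF (const true) hG).congr fun a => by cases F a <;> rfl

theorem not {F : α → Bool} (hF : PT F) : PT fun a => !F a :=
  (cond hF (const false) (const true)).congr fun a => by cases F a <;> rfl

theorem iterate {st : σ → σ} {cnt : α → β} {init : α → σ} (hs : PT st) (hc : PT cnt)
    (hi : PT init) (B : α → ℕ) (hB : Bd sz B)
    (hb : ∀ x, ∀ k ≤ sz (cnt x), sz (st^[k] (init x)) ≤ B x) :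
    PT fun x => st^[sz (cnt x)] (init x) :=
  PTR.iterate (es := fun s : σ => enc s) hs hc hi B hB hb

theorem toRaw : PT fun a : α => (⟨enc a⟩ : Raw) := PTR.id

theorem rawTail {F : α → Raw} (hF : PT F) : PT fun a => (⟨(F a).val.tail⟩ : Raw) := PTR.tail hF

theorem rawCons (b : Bool) {F : α → Raw} (hF : PT F) : PT fun a => (⟨b :: (F a).val⟩ : Raw) :=
  PTR.cons b hF

/-- Three way branch on the first bit of a raw string. -/
def rawCaseF {β : Type} (c : Bits) (e f t : β) : β :=
  match c with
  | [] => e
  | false :: _ => f
  | true :: _ => t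

theorem rawCase {C : α → Raw} {E F G : α → β} (hC : PT C) (hE : PT E) (hF : PT F) (hG : PT G) :
    PT fun a => rawCaseF (C a).val (E a) (F a) (G a) :=
  (PTR.case hC hE hF hG).congr fun a => by
    beta_reduce
    rcases C a with ⟨_ | ⟨_ | _, l⟩⟩ <;> rfl

def eqStep (s : Raw × Raw × Bool) : Raw × Raw × Bool :=
  (⟨s.1.val.tail⟩, ⟨s.2.1.val.tail⟩,
    rawCaseF s.1.val (rawCaseF s.2.1.val s.2.2 false false) (rawCaseF s.2.1.val false s.2.2 false)
      (rawCaseF s.2.1.val false false s.2.2))

theorem eqStep_pt : PT eqStep :=
  pair (rawTail fst') (pair (rawTail (fst snd'))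
    (rawCase fst' (rawCase (fst snd') (snd snd') (const false) (const false))
      (rawCase (fst snd') (const false) (snd snd') (const false))
      (rawCase (fst snd') (const false) (const false) (snd snd'))))

theorem eqStep_iter : ∀ (k : ℕ) (x y : Bits) (b : Bool),
    eqStep^[k] (⟨x⟩, ⟨y⟩, b) = (⟨x.drop k⟩, ⟨y.drop k⟩, b && decide (x.take k = y.take k)) := by
  intro k
  induction k with
  | zero => intro x y b; simp
  | succ k ih =>
    intro x y b
    rw [Function.iterate_succ_apply, eqStep, ih]
    rcases x with _ | ⟨_ | _, x⟩ <;> rcases y with _ | ⟨_ | _, y⟩ <;> simp [rawCaseF] <;> congr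

theorem eq0 [DecidableEq α] : PT fun p : α × α => decide (p.1 = p.2) := by
  have h := iterate (cnt := fun p : α × α => p) eqStep_pt id
    (pair (comp toRaw fst') (pair (comp toRaw snd') (const true)))
    (fun p => 4 * sz p + 3) (((Bd.const 4).mul Bd.self).add (Bd.const 3)) (by
      rintro ⟨x, y⟩ k _
      rw [eqStep_iter]
      simp only [sz_prod, sz_bool]
      simp only [sz, enc_raw, List.length_drop]
      omega)
  refine (snd (snd h)).congr ?_
  rintro ⟨x, y⟩
  rw [eqStep_iter]
  have h1 : (enc x).length ≤ sz (x, y) := by rw [sz_prod]; simp only [sz]; omega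
  have h2 : (enc y).length ≤ sz (x, y) := by rw [sz_prod]; simp only [sz]; omega
  simp only [Bool.true_and, List.take_of_length_le h1, List.take_of_length_le h2]
  simp [enc_injective.eq_iff]

theorem eq [DecidableEq β] {F G : α → β} (hF : PT F) (hG : PT G) :
    PT fun a => decide (F a = G a) :=
  comp eq0 (pair hF hG)

theorem iteEq [DecidableEq β] {F G : α → β} {U V : α → γ} (hF : PT F) (hG : PT G) (hU : PT U)
    (hV : PT V) : PT fun a => if F a = G a then U a else V a :=
  ite (eq hF hG) hU hV

/-- A function that is constant off a finite list is polynomial time. -/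
theorem ofFinite (d : β) : ∀ (L : List α) (f : α → β), (∀ a, a ∉ L → f a = d) → PT f := by
  classical
  intro L
  induction L with
  | nil => intro f h; exact (const d).congr fun a => (h a (by simp)).symm
  | cons a₀ L ih =>
    intro f h
    have h1 := ih (update f a₀ d) fun a ha => by
      by_cases h0 : a = a₀
      · subst h0; simp
      · simp [h0, h a (by simp [h0, ha])]
    refine (iteEq id (const a₀) (const (f a₀)) h1).congr fun a => ?_
    by_cases h0 : a = a₀
    · simp [h0]
    · simp [h0]

def foldStep {α β σ : Type} (d : β) (h : α → σ → β → σ) (s : α × List β × σ) : α × List β × σ :=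
  bif s.2.1.isEmpty then s else (s.1, s.2.1.tail, h s.1 s.2.2 (s.2.1.headD d))

theorem foldStep_iter {α β σ : Type} (d : β) (h : α → σ → β → σ) (a : α) :
    ∀ (k : ℕ) (l : List β) (s : σ),
      (foldStep d h)^[k] (a, l, s) = (a, l.drop k, (l.take k).foldl (h a) s) := by
  intro k
  induction k with
  | zero => intro l s; simp
  | succ k ih =>
    intro l s
    rw [Function.iterate_succ_apply]
    rcases l with _ | ⟨b, l⟩
    · simp [foldStep, ih]
    · simp [foldStep, ih]

theorem foldl [Inhabited β] {f : α → List β} {g : α → σ} {h : α → σ → β → σ} (hf : PT f)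
    (hg : PT g) (hh : PT fun p : α × σ × β => h p.1 p.2.1 p.2.2) (B : α → ℕ) (hB : Bd sz B)
    (hb : ∀ a k, sz (((f a).take k).foldl (h a) (g a)) ≤ B a) :
    PT fun a => (f a).foldl (h a) (g a) := by
  have hs : PT (foldStep default h) :=
    cond (isEmpty (fst snd')) id (pair fst' (pair (tail (fst snd'))
      (comp hh (pair fst' (pair (snd snd') (headD (fst snd') default))))))
  have h1 := iterate (cnt := f) hs hf (pair id (pair hf hg))
    (fun a => 2 * sz a + 2 * sz (f a) + B a + 2)
    (((((Bd.const 2).mul Bd.self).add ((Bd.const 2).mul hf.sz_bd)).add hB).add (Bd.const 2)) (by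
      intro a k _
      rw [foldStep_iter, sz_prod, sz_prod]
      have := sz_drop_le (f a) k
      have := hb a k
      omega)
  refine (snd (snd h1)).congr fun a => ?_
  rw [foldStep_iter, List.take_of_length_le (length_le_sz _)]

theorem foldl_sz_le {β σ : Type} [Enc σ] (h : σ → β → σ) (D : ℕ) : ∀ (l : List β) (s : σ),
    (∀ s, ∀ b ∈ l, sz (h s b) ≤ sz s + D) → sz (l.foldl h s) ≤ sz s + l.length * D := by
  intro l
  induction l with
  | nil => intro s _; simp
  | cons b l ih =>
    intro s hl
    have h1 := ih (h s b) fun s b hb => hl s b (List.mem_cons_of_mem _ hb)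
    have h2 := hl s b List.mem_cons_self
    simp only [List.foldl_cons, List.length_cons]
    nlinarith

theorem foldl_add [Inhabited β] {f : α → List β} {g : α → σ} {h : α → σ → β → σ} (hf : PT f)
    (hg : PT g) (hh : PT fun p : α × σ × β => h p.1 p.2.1 p.2.2) (D : α → ℕ) (hD : Bd sz D)
    (hb : ∀ a s, ∀ b ∈ f a, sz (h a s b) ≤ sz s + D a) :
    PT fun a => (f a).foldl (h a) (g a) := by
  refine foldl hf hg hh (fun a => sz (g a) + sz (f a) * D a) (hg.sz_bd.add (hf.sz_bd.mul hD)) ?_
  intro a k
  refine (foldl_sz_le (h a) (D a) _ _ fun s b hb' => hb a s b (List.mem_of_mem_take hb')).trans ?_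
  have h1 : ((f a).take k).length ≤ sz (f a) :=
    (List.length_take_le' _ _).trans (length_le_sz _)
  have := Nat.mul_le_mul_right (D a) h1
  omega

theorem foldl_append_eq {β γ : Type} (F : β → List γ) : ∀ (l : List β) (s : List γ),
    l.foldl (fun s b => s ++ F b) s = s ++ l.flatMap F := by
  intro l
  induction l with
  | nil => simp
  | cons b l ih => intro s; simp [ih]

theorem flatMap [Inhabited β] {f : α → List β} {F : α → β → List γ} (hf : PT f)
    (hF : PT fun p : α × β => F p.1 p.2) : PT fun a => (f a).flatMap (F a) := by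
  obtain ⟨p, hp⟩ := hF.sz_bd
  have h := foldl_add (h := fun a s b => s ++ F a b) hf (const [])
    (append (fst snd') (comp hF (pair fst' (snd snd'))))
    (fun a => p.eval (2 * sz a + 1 + sz (f a)))
    (((((Bd.const 2).mul Bd.self).add (Bd.const 1)).add hf.sz_bd).eval p) (by
      intro a s b hb
      rw [sz_append]
      have h1 := hp (a, b)
      rw [sz_prod] at h1
      have h2 := eval_mono p (show 2 * sz a + 1 + sz b ≤ 2 * sz a + 1 + sz (f a) by
        have := sz_le_of_mem hb; omega)
      simp only at h1
      omega)
  exact h.congr fun a => by rw [foldl_append_eq]; simp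

theorem map [Inhabited β] {f : α → List β} {F : α → β → γ} (hf : PT f)
    (hF : PT fun p : α × β => F p.1 p.2) : PT fun a => (f a).map (F a) :=
  (flatMap (F := fun a b => [F a b]) hf (cons hF (const []))).congr fun a => by
    induction f a with
    | nil => rfl
    | cons b l ih => simp [ih]

/-- The list of pairs (state before the letter, letter) along a left fold. -/
def scan {β σ : Type} (h : σ → β → σ) : σ → List β → List (σ × β)
  | _, [] => []
  | s, b :: l => (s, b) :: scan h (h s b) l

theorem foldl_scan {β σ : Type} (h : σ → β → σ) : ∀ (l : List β) (s : σ) (acc : List (σ × β)),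
    l.foldl (fun (p : σ × List (σ × β)) b => (h p.1 b, p.2 ++ [(p.1, b)])) (s, acc) =
      (l.foldl h s, acc ++ scan h s l) := by
  intro l
  induction l with
  | nil => simp [scan]
  | cons b l ih => intro s acc; simp [scan, ih]

theorem sz_scan_le (h : σ → β → σ) (D : ℕ) (hD : ∀ s b, sz (h s b) ≤ sz s + D) :
    ∀ (l : List β) (s : σ),
      sz (scan h s l) ≤ l.length * (4 * (sz s + l.length * D) + 3) + 2 * sz l := by
  intro l
  induction l with
  | nil => intro s; simp [scan, sz_nil]
  | cons b l ih =>
    intro s
    have h1 := ih (h s b)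
    have h2 := hD s b
    rw [scan, sz_cons, sz_prod, sz_cons, List.length_cons]
    have h3 : l.length * (4 * (sz (h s b) + l.length * D) + 3) ≤
        l.length * (4 * (sz s + (l.length + 1) * D) + 3) :=
      Nat.mul_le_mul_left _ (by nlinarith)
    nlinarith

theorem scan_pt [Inhabited β] {f : α → List β} {g : α → σ} {h : σ → β → σ} (hf : PT f)
    (hg : PT g) (hh : PT fun p : σ × β => h p.1 p.2) (D : ℕ)
    (hD : ∀ s b, sz (h s b) ≤ sz s + D) : PT fun a => scan h (g a) (f a) := by
  have h1 := foldl (h := fun _ (p : σ × List (σ × β)) b => (h p.1 b, p.2 ++ [(p.1, b)])) hf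
    (pair hg (const []))
    (pair (comp hh (pair (fst (fst snd')) (snd snd')))
      (append (snd (fst snd')) (cons (pair (fst (fst snd')) (snd snd')) (const []))))
    (fun a => 2 * (sz (g a) + sz (f a) * D) + 1 +
      (sz (f a) * (4 * (sz (g a) + sz (f a) * D) + 3) + 2 * sz (f a)))
    ((((Bd.const 2).mul (hg.sz_bd.add (hf.sz_bd.mul (Bd.const D)))).add (Bd.const 1)).add
      ((hf.sz_bd.mul (((Bd.const 4).mul (hg.sz_bd.add (hf.sz_bd.mul (Bd.const D)))).add
        (Bd.const 3))).add ((Bd.const 2).mul hf.sz_bd))) (by
      intro a k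
      rw [foldl_scan, sz_prod, List.nil_append]
      have h1 : ((f a).take k).length ≤ sz (f a) :=
        (List.length_take_le' _ _).trans (length_le_sz _)
      have h2 := foldl_sz_le h D ((f a).take k) (g a) fun s b _ => hD s b
      have h3 := sz_scan_le h D hD ((f a).take k) (g a)
      have h4 : sz ((f a).take k) ≤ sz (f a) := by
        have := sz_append ((f a).take k) ((f a).drop k)
        rw [List.take_append_drop] at this
        omega
      have h5 := Nat.mul_le_mul_right D h1
      have h6 : ((f a).take k).length * (4 * (sz (g a) + ((f a).take k).length * D) + 3) ≤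
          sz (f a) * (4 * (sz (g a) + sz (f a) * D) + 3) := Nat.mul_le_mul h1 (by omega)
      omega)
  exact (snd h1).congr fun a => by rw [foldl_scan]; simp

end PT

/-- An injective numbering of any encoded type, tagged by one bit. -/
def tag {α : Type} [Enc α] (b : Bool) (a : α) : ℕ := decodeNat (b :: (enc a ++ [true]))

theorem encodePosNum_decode : ∀ l : Bits, encodePosNum (decodePosNum (l ++ [true])) = l ++ [true]
  | [] => rfl
  | false :: l => by simp [decodePosNum, encodePosNum, encodePosNum_decode l]
  | true :: l => by simp [decodePosNum, encodePosNum, encodePosNum_decode l]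

theorem encodeNat_decode (l : Bits) : encodeNat (decodeNat (l ++ [true])) = l ++ [true] := by
  simp only [encodeNat, decodeNat, decodeNum, Num.of_to_nat]
  rw [if_neg (by simp), PosNum.cast_to_num]
  exact encodePosNum_decode l

theorem enc_tag {α : Type} [Enc α] (b : Bool) (a : α) : enc (tag b a) = b :: (enc a ++ [true]) :=
  encodeNat_decode (b :: enc a)

theorem tag_injective {α : Type} [Enc α] (b : Bool) : Injective (tag b : α → ℕ) := by
  intro x y h
  have := congrArg enc h
  rw [enc_tag, enc_tag] at this
  simpa [enc_injective.eq_iff] using this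

theorem tag_ne {α β : Type} [Enc α] [Enc β] (x : α) (y : β) : tag false x ≠ tag true y := by
  intro h
  have := congrArg enc h
  rw [enc_tag, enc_tag] at this
  simp at this

theorem PT.tag {α β : Type} [Enc α] [Enc β] (b : Bool) {F : α → β} (hF : PT F) :
    PT fun a => tag b (F a) :=
  (PTR.cons b (PTR.append hF (PT.constB [true]))).congr fun a => (enc_tag b (F a)).symm

end Pool.Agent.Lib.helper82
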