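import Pool.Agent.Lib.helper82.Arith

/-! Clocked simulation of an arbitrary `FinTM2` by polynomial time functions. -/

namespace Pool.Agent.Lib.helper82

open Function N487b59b3 Computability Turing

/-- A bit string encoding of a finite type. -/
@[instance_reducible]
noncomputable def finEnc (α : Type) [Fintype α] : Enc α :=
  ofLeftInverse (fun a => ((Fintype.equivFin α a : Fin _) : ℕ))
    (fun n => if h : n < Fintype.card α then some ((Fintype.equivFin α).symm ⟨n, h⟩) else none)
    (fun a => by simp)

theorem sz_set_le {β : Type} [Enc β] (d v : β) (c : ℕ) : ∀ (l : List β) (i : ℕ),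
    sz v ≤ sz (l.getD i d) + c → sz (l.set i v) ≤ sz l + 2 * c
  | [], _, _ => by simp
  | a :: l, 0, h => by
    simp only [List.getD_cons_zero] at h
    simp only [List.set_cons_zero, sz_cons]; omega
  | a :: l, i + 1, h => by
    simp only [List.getD_cons_succ] at h
    have := sz_set_le d v c l i h
    simp only [List.set_cons_succ, sz_cons]; omega

theorem exists_sz_bound {ι β : Type} [Fintype ι] [Enc β] (f : ι → β) :
    ∃ C, ∀ i, sz (f i) ≤ C :=
  ⟨Finset.univ.sup fun i => sz (f i), fun i =>
    Finset.le_sup (f := fun i => sz (f i)) (Finset.mem_univ i)⟩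

section Sim

set_option linter.unusedSectionVars false

variable {K : Type} [DecidableEq K] [Fintype K] {Γ : K → Type} {Λ σ : Type}
  [Fintype Λ] [Fintype σ]

noncomputable def pushed : TM2.Stmt Γ Λ σ → List (Σ k, Γ k)
  | .push k f q => (Finset.univ.toList.map fun v => ⟨k, f v⟩) ++ pushed q
  | .peek _ _ q => pushed q
  | .pop _ _ q => pushed q
  | .load _ q => pushed q
  | .branch _ q₁ q₂ => pushed q₁ ++ pushed q₂
  | .goto _ => []
  | .halt => []

variable (U : List (Σ k, Γ k))

open Classical in
noncomputable def symCode (s : Σ k, Γ k) : ℕ := U.idxOf s + 1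

open Classical in
noncomputable def symDec (k : K) (n : ℕ) : Option (Γ k) :=
  if h : ∃ g : Γ k, (⟨k, g⟩ : Σ k, Γ k) ∈ U ∧ symCode U ⟨k, g⟩ = n then some h.choose else none

theorem symDec_code (k : K) (g : Γ k) (hg : (⟨k, g⟩ : Σ k, Γ k) ∈ U) :
    symDec U k (symCode U ⟨k, g⟩) = some g := by
  classical
  have h : ∃ g' : Γ k, (⟨k, g'⟩ : Σ k, Γ k) ∈ U ∧ symCode U ⟨k, g'⟩ = symCode U ⟨k, g⟩ :=
    ⟨g, hg, rfl⟩
  rw [symDec, dif_pos h]
  obtain ⟨h1, h2⟩ := h.choose_spec
  generalize h.choose = g' at h1 h2
  simp only [symCode, add_left_inj] at h2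
  have := (List.idxOf_inj h1).1 h2
  simpa using this

theorem symDec_none (k : K) (n : ℕ) (hn : n ∉ List.range' 1 U.length) : symDec U k n = none := by
  classical
  rw [symDec, dif_neg]
  rintro ⟨g, hg, rfl⟩
  apply hn
  have := List.idxOf_lt_length_of_mem hg
  simp only [symCode, List.mem_range'_1]
  constructor
  · omega
  · convert Nat.add_lt_add_right this 1 using 1; omega

noncomputable def ix (k : K) : ℕ := (Fintype.equivFin K k : Fin _)

noncomputable def codeS (S : ∀ k, List (Γ k)) : List (List ℕ) :=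
  List.ofFn fun i : Fin (Fintype.card K) =>
    (S ((Fintype.equivFin K).symm i)).map fun g => symCode U ⟨_, g⟩

theorem getD_codeS (S : ∀ k, List (Γ k)) (k : K) :
    (codeS U S).getD (ix k) [] = (S k).map fun g => symCode U ⟨k, g⟩ := by
  have h : ix k < (codeS U S).length := by simp [codeS, ix]
  rw [List.getD_eq_getElem _ _ h]
  simp only [codeS, ix, List.getElem_ofFn, Fin.eta]
  have : ∀ k', k' = k → ((S k').map fun g => symCode U ⟨k', g⟩) =
      (S k).map fun g => symCode U ⟨k, g⟩ := by rintro _ rfl; rfl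
  exact this _ (by simp)

theorem codeS_update (S : ∀ k, List (Γ k)) (k : K) (l : List (Γ k)) :
    codeS U (update S k l) = (codeS U S).set (ix k) (l.map fun g => symCode U ⟨k, g⟩) := by
  apply List.ext_getElem
  · simp [codeS]
  · intro i h1 h2
    simp only [codeS, List.getElem_ofFn, List.getElem_set]
    have hi : i < Fintype.card K := by simpa [codeS] using h1
    split_ifs with h
    · have e : (Fintype.equivFin K).symm ⟨i, hi⟩ = k := by
        rw [Equiv.symm_apply_eq]; exact Fin.ext h.symm
      have : ∀ k', k' = k → ((update S k l k').map fun g => symCode U ⟨k', g⟩) =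
          l.map fun g => symCode U ⟨k, g⟩ := by rintro _ rfl; simp
      exact this _ e
    · have e : (Fintype.equivFin K).symm ⟨i, hi⟩ ≠ k := by
        intro e
        rw [Equiv.symm_apply_eq] at e
        exact h (congrArg Fin.val e).symm
      rw [update_of_ne e]

noncomputable def simAux : TM2.Stmt Γ Λ σ → σ × List (List ℕ) → Option Λ × σ × List (List ℕ)
  | .push k f q, s =>
      simAux q (s.1, s.2.set (ix k) (symCode U ⟨k, f s.1⟩ :: s.2.getD (ix k) []))
  | .peek k f q, s => simAux q (f s.1 (symDec U k ((s.2.getD (ix k) []).headD 0)), s.2)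
  | .pop k f q, s => simAux q (f s.1 (symDec U k ((s.2.getD (ix k) []).headD 0)),
      s.2.set (ix k) (s.2.getD (ix k) []).tail)
  | .load a q, s => simAux q (a s.1, s.2)
  | .branch f q₁ q₂, s => bif f s.1 then simAux q₁ s else simAux q₂ s
  | .goto f, s => (some (f s.1), s)
  | .halt, s => (none, s)

def Good (S : ∀ k, List (Γ k)) : Prop := ∀ k, ∀ g ∈ S k, (⟨k, g⟩ : Σ k, Γ k) ∈ U

noncomputable def codeC (c : TM2.Cfg Γ Λ σ) : Option Λ × σ × List (List ℕ) :=
  (c.l, c.var, codeS U c.stk)

theorem symDec_head (S : ∀ k, List (Γ k)) (hS : Good U S) (k : K) :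
    symDec U k (((codeS U S).getD (ix k) []).headD 0) = (S k).head? := by
  rw [getD_codeS]
  rcases h : S k with _ | ⟨g, l⟩
  · exact symDec_none U k 0 (by simp)
  · exact symDec_code U k g (hS k g (by simp [h]))

theorem good_update {S : ∀ k, List (Γ k)} (hS : Good U S) (k : K) (l : List (Γ k))
    (hl : ∀ g ∈ l, (⟨k, g⟩ : Σ k, Γ k) ∈ U) : Good U (update S k l) := by
  intro k' g hg
  by_cases h : k' = k
  · subst h; exact hl g (by simpa using hg)
  · rw [update_of_ne h] at hg; exact hS k' g hg

theorem simAux_correct (q : TM2.Stmt Γ Λ σ) : ∀ (v : σ) (S : ∀ k, List (Γ k)), Good U S →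
    (∀ s ∈ pushed q, s ∈ U) →
    simAux U q (v, codeS U S) = codeC U (TM2.stepAux q v S) ∧ Good U (TM2.stepAux q v S).stk := by
  induction q with
  | push k f q ih =>
    intro v S hS hq
    have h1 : (⟨k, f v⟩ : Σ k, Γ k) ∈ U := hq _ (by simp [pushed])
    have := ih v (update S k (f v :: S k)) (good_update U hS k _ (by
      intro g hg
      rcases List.mem_cons.1 hg with rfl | hg
      · exact h1
      · exact hS k g hg)) (fun s hs => hq s (by simp [pushed, hs]))
    rw [codeS_update] at this
    simpa only [simAux, TM2.stepAux, getD_codeS, List.map_cons] using this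
  | peek k f q ih =>
    intro v S hS hq
    have := ih (f v (S k).head?) S hS hq
    simpa only [simAux, TM2.stepAux, symDec_head U S hS] using this
  | pop k f q ih =>
    intro v S hS hq
    have := ih (f v (S k).head?) (update S k (S k).tail) (good_update U hS k _
      fun g hg => hS k g (List.mem_of_mem_tail hg)) hq
    rw [codeS_update] at this
    simp only [simAux, TM2.stepAux, symDec_head U S hS]
    rw [getD_codeS, ← List.map_tail]
    exact this
  | load a q ih => intro v S hS hq; exact ih (a v) S hS hq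
  | branch f q₁ q₂ ih1 ih2 =>
    intro v S hS hq
    simp only [simAux, TM2.stepAux]
    cases f v
    · exact ih2 v S hS fun s hs => hq s (by simp [pushed, hs])
    · exact ih1 v S hS fun s hs => hq s (by simp [pushed, hs])
  | goto f => intro v S hS _; exact ⟨rfl, hS⟩
  | halt => intro v S hS _; exact ⟨rfl, hS⟩

variable [Enc σ] [Enc (Option Λ)]

theorem peek_pt (k : K) (f : σ → Option (Γ k) → σ) :
    PT fun p : σ × ℕ => f p.1 (symDec U k p.2) := by
  classical
  rcases isEmpty_or_nonempty σ with h | ⟨⟨v₀⟩⟩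
  · exact PTR.nil.congr fun a => h.elim a.1
  have h1 : PT fun p : σ × ℕ =>
      if p.2 ∈ List.range' 1 U.length then f p.1 (symDec U k p.2) else v₀ :=
    PT.ofFinite v₀ (Finset.univ.toList.product (List.range' 1 U.length)) _ (by
      rintro ⟨v, n⟩ h
      rw [if_neg]
      intro hn
      exact h (by simpa using hn))
  refine (PT.ite (PT.mem PT.snd' (PT.const (List.range' 1 U.length))) h1
    (PT.comp (PT.ofFintype fun v => f v none) PT.fst')).congr fun p => ?_
  by_cases h : p.2 ∈ List.range' 1 U.length
  · simp only [h, if_true]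
  · simp only [h, if_false, symDec_none U k _ h]

theorem simAux_pt (q : TM2.Stmt Γ Λ σ) : PT (simAux U q) := by
  have hf : PT fun s : σ × List (List ℕ) => s.1 := PT.fst'
  have hs : PT fun s : σ × List (List ℕ) => s.2 := PT.snd'
  induction q with
  | push k f q ih =>
    have h1 : PT fun s : σ × List (List ℕ) => symCode U ⟨k, f s.1⟩ :=
      PT.comp (G := fun v : σ => symCode U ⟨k, f v⟩) (PT.ofFintype _) hf
    exact (PT.comp ih (PT.pair hf (PT.set_const (ix k) hs
      (PT.cons h1 (PT.getD_const [] (ix k) hs)))) :)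
  | peek k f q ih =>
    have h1 := PT.comp (peek_pt U k f) (PT.pair hf (PT.headD (PT.getD_const [] (ix k) hs) 0))
    exact (PT.comp ih (PT.pair h1 hs) :)
  | pop k f q ih =>
    have h1 := PT.comp (peek_pt U k f) (PT.pair hf (PT.headD (PT.getD_const [] (ix k) hs) 0))
    exact (PT.comp ih (PT.pair h1
      (PT.set_const (ix k) hs (PT.tail (PT.getD_const [] (ix k) hs)))) :)
  | load a q ih =>
    have h1 : PT fun s : σ × List (List ℕ) => a s.1 := PT.comp (PT.ofFintype a) hf
    exact (PT.comp ih (PT.pair h1 hs) :)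
  | branch f q₁ q₂ ih1 ih2 => exact PT.cond (PT.comp (PT.ofFintype f) hf) ih1 ih2
  | goto f =>
    have h1 : PT fun s : σ × List (List ℕ) => some (f s.1) :=
      PT.comp (G := fun v : σ => some (f v)) (PT.ofFintype _) hf
    exact PT.pair h1 PT.id
  | halt => exact PT.pair (PT.const none) PT.id

theorem simAux_sz (q : TM2.Stmt Γ Λ σ) : ∃ C, ∀ s, sz (simAux U q s) ≤ sz s.2 + C := by
  obtain ⟨A, hA⟩ := exists_sz_bound fun v : σ => v
  obtain ⟨B, hB⟩ := exists_sz_bound fun v : Option Λ => v
  induction q with
  | push k f q ih =>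
    obtain ⟨C, hC⟩ := ih
    obtain ⟨D, hD⟩ := exists_sz_bound fun v : σ => symCode U ⟨k, f v⟩
    refine ⟨C + 2 * (2 * D + 1), fun s => (hC _).trans ?_⟩
    have := sz_set_le [] (symCode U ⟨k, f s.1⟩ :: s.2.getD (ix k) []) (2 * D + 1) s.2 (ix k)
      (by rw [sz_cons]; have := hD s.1; omega)
    simp only; omega
  | peek k f q ih => obtain ⟨C, hC⟩ := ih; exact ⟨C, fun s => hC _⟩
  | pop k f q ih =>
    obtain ⟨C, hC⟩ := ih
    refine ⟨C, fun s => (hC _).trans ?_⟩
    have := sz_set_le [] (s.2.getD (ix k) []).tail 0 s.2 (ix k) (sz_tail_le _)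
    simp only; omega
  | load a q ih => obtain ⟨C, hC⟩ := ih; exact ⟨C, fun s => hC _⟩
  | branch f q₁ q₂ ih1 ih2 =>
    obtain ⟨C, hC⟩ := ih1
    obtain ⟨D, hD⟩ := ih2
    refine ⟨C + D, fun s => ?_⟩
    simp only [simAux]
    have := hC s
    have := hD s
    cases f s.1 <;> simp only [cond_true, cond_false] <;> omega
  | goto f =>
    refine ⟨2 * B + 2 * A + 2, fun s => ?_⟩
    obtain ⟨v, T⟩ := s
    simp only [simAux, sz_prod]
    have := hA v
    have := hB (some (f v))
    omega
  | halt =>
    refine ⟨2 * B + 2 * A + 2, fun s => ?_⟩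
    obtain ⟨v, T⟩ := s
    simp only [simAux, sz_prod]
    have := hA v
    have := hB none
    omega

variable (M : Λ → TM2.Stmt Γ Λ σ)

noncomputable def simStepF (l : Option Λ) (c : Option Λ × σ × List (List ℕ)) :
    Option Λ × σ × List (List ℕ) :=
  match l with
  | none => c
  | some l => simAux U (M l) c.2

noncomputable def simStep (c : Option Λ × σ × List (List ℕ)) : Option Λ × σ × List (List ℕ) :=
  simStepF U M c.1 c

theorem simStep_pt : PT (simStep U M) :=
  PT.casesFintype PT.fst' (simStepF U M) fun l => by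
    rcases l with _ | l
    · exact PT.id
    · have hs : PT fun c : Option Λ × σ × List (List ℕ) => c.2 := PT.snd'
      exact (PT.comp (simAux_pt U (M l)) hs :)

theorem simStep_sz : ∃ C, ∀ c, sz (simStep U M c) ≤ sz c + C := by
  choose C hC using fun l => simAux_sz U (M l)
  refine ⟨Finset.univ.sup C, fun c => ?_⟩
  obtain ⟨_ | l, v, T⟩ := c
  · simp [simStep, simStepF]
  · have h1 := hC l (v, T)
    have h2 : C l ≤ Finset.univ.sup C := Finset.le_sup (Finset.mem_univ l)
    simp only [simStep, simStepF, sz_prod] at *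
    omega

theorem simStep_iter (hU : ∀ l, ∀ s ∈ pushed (M l), s ∈ U) : ∀ (n : ℕ) (c c' : TM2.Cfg Γ Λ σ),
    Good U c.stk → (flip bind (TM2.step M))^[n] (some c) = some c' →
      (simStep U M)^[n] (codeC U c) = codeC U c' ∧ Good U c'.stk := by
  intro n
  induction n with
  | zero => intro c c' hc h; obtain rfl : c = c' := by simpa using h
            exact ⟨rfl, hc⟩
  | succ n ih =>
    intro c c' hc h
    rw [Function.iterate_succ_apply] at h ⊢
    obtain ⟨_ | l, v, S⟩ := c
    · exfalso
      have : ∀ n, (flip bind (TM2.step M))^[n] none = none := fun n =>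
        Function.iterate_fixed rfl n
      have e : flip bind (TM2.step M) (some (⟨none, v, S⟩ : TM2.Cfg Γ Λ σ)) = none := rfl
      rw [e, this] at h
      exact absurd h (by simp)
    · obtain ⟨h1, h2⟩ := simAux_correct U (M l) v S hc (hU l)
      have e : simStep U M (codeC U ⟨some l, v, S⟩) = codeC U (TM2.stepAux (M l) v S) := h1
      rw [e]
      exact ih _ _ h2 h

end Sim

theorem foldl_const_iter {β γ : Type} (f : β → β) : ∀ (l : List γ) (s : β),
    l.foldl (fun s _ => f s) s = f^[l.length] s := by
  intro l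
  induction l with
  | nil => simp
  | cons b l ih => intro s; simp [ih]

theorem iter_some_of_le {β : Type} (f : β → Option β) (n t : ℕ) (ht : t ≤ n) (c c' : β)
    (h : (flip bind f)^[n] (some c) = some c') :
    ∃ c'', (flip bind f)^[t] (some c) = some c'' ∧ (flip bind f)^[n - t] (some c'') = some c' := by
  rw [show n = (n - t) + t by omega, Function.iterate_add_apply] at h
  rcases e : (flip bind f)^[t] (some c) with _ | c''
  · rw [e, Function.iterate_fixed (f := flip bind f) (x := none) rfl] at h
    exact absurd h (by simp)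
  · exact ⟨c'', rfl, by rwa [e] at h⟩

/-- Clocked simulation with a flag telling whether the machine has halted. -/
theorem exists_sim_flag (tm : TM2ComputableAux Bool Bool) :
    ∃ sim : List Bool × List Bool → Bool × List Bool, PT sim ∧
      ∀ (x y clock : List Bool) (m : ℕ),
        Nonempty (TM2OutputsInTime tm.tm (x.map tm.inputAlphabet.invFun)
          (some (y.map tm.outputAlphabet.invFun)) m) →
        (m ≤ clock.length → (sim (x, clock)).1 = true) ∧
          ((sim (x, clock)).1 = true → (sim (x, clock)).2 = y) := by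
  classical
  obtain ⟨tm, eI, eO⟩ := tm
  let _ := tm.kFin
  let _ := tm.ΛFin
  let _ := tm.σFin
  let _ : Enc tm.σ := finEnc _
  let _ : Enc (Option tm.Λ) := finEnc _
  let U : List (Σ k, tm.Γ k) := [⟨tm.k₀, eI.symm false⟩, ⟨tm.k₀, eI.symm true⟩] ++
    Finset.univ.toList.flatMap fun l => pushed (tm.m l)
  have hU : ∀ l, ∀ s ∈ pushed (tm.m l), s ∈ U := fun l s hs =>
    List.mem_append_right _ (List.mem_flatMap.2 ⟨l, by simp, hs⟩)
  let init : List Bool → Option tm.Λ × tm.σ × List (List ℕ) := fun x =>
    (some tm.main, tm.initialState, (codeS U fun _ => []).set (ix tm.k₀)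
      (x.map fun b => symCode U ⟨tm.k₀, eI.symm b⟩))
  let out : ℕ → Bool := fun n => ((symDec U tm.k₁ n).map eO).getD false
  have hinit : PT init := PT.pair (PT.const _) (PT.pair (PT.const _) (PT.set_const _ (PT.const _)
    (PT.map (F := fun (_ : List Bool) (b : Bool) => symCode U ⟨tm.k₀, eI.symm b⟩) PT.id
      (PT.comp (G := fun b : Bool => symCode U ⟨tm.k₀, eI.symm b⟩) (PT.ofFintype _) PT.snd'))))
  have hout : PT out := PT.ofFinite false (List.range' 1 U.length) _ fun n hn => by
    simp [out, symDec_none U tm.k₁ n hn]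
  obtain ⟨C, hC⟩ := simStep_sz U tm.m
  have hrun := PT.foldl_add (h := fun (_ : List Bool × List Bool) s (_ : Bool) => simStep U tm.m s)
    PT.snd' (PT.comp hinit PT.fst') (PT.comp (simStep_pt U tm.m) (PT.fst PT.snd'))
    (fun _ => C) (Bd.const C) (fun _ s _ _ => hC s)
  refine ⟨_, PT.pair (PT.comp (PT.ofFintype fun l : Option tm.Λ => l.isNone) (PT.fst hrun))
    (PT.map (F := fun _ n => out n) (PT.getD_const [] (ix tm.k₁) (PT.snd (PT.snd hrun)))
    (PT.comp hout PT.snd')), ?_⟩
  rintro x y clock m ⟨⟨⟨n, hn⟩, hle⟩⟩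
  simp only [Option.map_some] at hn hle
  have e0 : initList tm (x.map eI.invFun) =
      (⟨some tm.main, tm.initialState, update (fun _ => []) tm.k₀ (x.map eI.symm)⟩ :
        TM2.Cfg tm.Γ tm.Λ tm.σ) := by
    simp only [initList]
    congr 1
    funext k
    by_cases hk : k = tm.k₀
    · subst hk; simp
    · simp [hk]
  have e1 : (haltList tm (y.map eO.invFun)).stk tm.k₁ = y.map eO.symm := by
    simp [haltList]
  have hg : Good U (update (fun _ => ([] : List (tm.Γ _))) tm.k₀ (x.map eI.symm)) :=
    good_update U (fun k g hg => by simp at hg) _ _ (by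
      intro g hg
      obtain ⟨b, _, rfl⟩ := List.mem_map.1 hg
      cases b <;> simp [U])
  rw [e0] at hn
  obtain ⟨h1, h2⟩ := simStep_iter U tm.m hU n _ _ hg hn
  have e2 : codeC U (⟨some tm.main, tm.initialState, update (fun _ => []) tm.k₀ (x.map eI.symm)⟩ :
      TM2.Cfg tm.Γ tm.Λ tm.σ) = init x := by
    simp only [codeC, init, codeS_update, List.map_map]
    rfl
  rw [e2] at h1
  have e3 : n ≤ clock.length →
      (simStep U tm.m)^[clock.length] (init x) = codeC U (haltList tm (y.map eO.invFun)) := by
    intro hm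
    rw [show clock.length = (clock.length - n) + n by omega, Function.iterate_add_apply, h1]
    exact Function.iterate_fixed rfl _
  simp only [foldl_const_iter]
  refine ⟨fun hm => by rw [e3 (hle.trans hm)]; rfl, fun hf => ?_⟩
  have hm : n ≤ clock.length := by
    by_contra hlt
    obtain ⟨c'', h3, h4⟩ := iter_some_of_le _ n clock.length (by omega) _ _ hn
    have h5 := (simStep_iter U tm.m hU _ _ _ hg h3).1
    rw [e2] at h5
    rw [h5] at hf
    obtain ⟨_ | l, v, S⟩ := c''
    · rw [show n - clock.length = (n - clock.length - 1) + 1 by omega,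
        Function.iterate_succ_apply] at h4
      have e : flip bind tm.step (some (⟨none, v, S⟩ : TM2.Cfg tm.Γ tm.Λ tm.σ)) = none := rfl
      rw [e, Function.iterate_fixed (f := flip bind tm.step) (x := none) rfl] at h4
      exact absurd h4 (by simp)
    · simp [codeC] at hf
  simp only [e3 hm, codeC, getD_codeS, e1, List.map_map]
  conv_rhs => rw [← List.map_id y]
  refine List.map_congr_left fun b hb => ?_
  have : (⟨tm.k₁, eO.symm b⟩ : Σ k, tm.Γ k) ∈ U :=
    h2 tm.k₁ _ (by rw [e1]; exact List.mem_map_of_mem hb)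
  simp [out, symDec_code U _ _ this]

/-- Every machine with binary input and output has a polynomial time clocked simulation. -/
theorem exists_sim (tm : TM2ComputableAux Bool Bool) :
    ∃ sim : List Bool × List Bool → List Bool, PT sim ∧
      ∀ (x y clock : List Bool) (m : ℕ), m ≤ clock.length →
        Nonempty (TM2OutputsInTime tm.tm (x.map tm.inputAlphabet.invFun)
          (some (y.map tm.outputAlphabet.invFun)) m) → sim (x, clock) = y := by
  obtain ⟨sim, h1, h2⟩ := exists_sim_flag tm
  exact ⟨_, PT.snd h1, fun x y clock m hm h => (h2 x y clock m h).2 ((h2 x y clock m h).1 hm)⟩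

/-- Polynomial time in the sense of Mathlib gives polynomial time in our sense. -/
theorem PTR.ofTM2 {α β : Type} {ea : α → Bits} {eb : β → Bits} {F : α → β}
    (h : Nonempty (TM2ComputableInPolyTime ea eb F)) : PTR ea fun a => eb (F a) := by
  obtain ⟨h⟩ := h
  obtain ⟨sim, hs, hsim⟩ := exists_sim h.toTM2ComputableAux
  have h1 : PT fun r : Raw => (⟨sim (r.val, List.replicate (h.time.eval r.val.length) true)⟩ : Raw) :=
    PT.comp PT.listToRaw (PT.comp hs (PT.pair PT.rawToList (PT.clock PT.rawToList h.time)))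
  have h2 : PTR ea fun a => sim (ea a, List.replicate (h.time.eval (ea a).length) true) :=
    PTR.comp (F := fun a => (⟨ea a⟩ : Raw)) h1 PTR.id
  exact h2.congr fun a => hsim _ _ _ _ (by simp) ⟨h.outputsFun a⟩

theorem PT.ofIsPolyTime {α β : Type} [Enc α] [Enc β] {F : α → β}
    (h : N68a2faeb.IsPolyTime F) : PT F := PTR.ofTM2 h

/-- Polynomial time machines compose. -/
theorem tm2_comp {α β γ : Type} {ea : α → Bits} {eb : β → Bits} {ec : γ → Bits} {F : α → β}
    {G : β → γ} (hF : Nonempty (TM2ComputableInPolyTime ea eb F))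
    (hG : Nonempty (TM2ComputableInPolyTime eb ec G)) :
    Nonempty (TM2ComputableInPolyTime ea ec fun a => G (F a)) :=
  PTR.toTM2 (PTR.comp (F := F) (PTR.ofTM2 hG) (PTR.ofTM2 hF))

end Pool.Agent.Lib.helper82
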