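import Pool.Agent.Lib.helper82.PT

/-! More polynomial time primitives: lists, binary arithmetic, clocks. -/

namespace Pool.Agent.Lib.helper82

open Function N487b59b3 Computability

theorem encodeNat_zero : encodeNat 0 = [] := by
  simp [encodeNat, encodeNum]

theorem encodeNat_bit (b : Bool) (n : ℕ) (h : n = 0 → b = true) :
    encodeNat (Nat.bit b n) = b :: encodeNat n := by
  unfold encodeNat
  rw [← Num.ofNat'_eq, ← Num.ofNat'_eq, Num.ofNat'_bit]
  by_cases hn : n = 0
  · subst hn
    rw [h rfl, Num.ofNat'_zero]
    rfl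
  · rcases hm : Num.ofNat' n with _ | p
    · exfalso
      rw [Num.ofNat'_eq] at hm
      have := congrArg (fun x : Num => (x : ℕ)) hm
      simp only [Num.to_of_nat] at this
      exact hn this
    · cases b <;> rfl

theorem encodeNat_eq_bits (n : ℕ) : encodeNat n = n.bits := by
  induction n using Nat.binaryRec' with
  | zero => simp [encodeNat_zero]
  | bit b n h ih => rw [encodeNat_bit b n h, Nat.bits_append_bit n b h, ih]

theorem sz_nat (n : ℕ) : sz n = n.size := by
  rw [sz, enc_nat, encodeNat_eq_bits, Nat.size_eq_bits_len]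

theorem sz_nat_le {n k : ℕ} : sz n ≤ k ↔ n < 2 ^ k := by rw [sz_nat, Nat.size_le]

theorem lt_two_pow_sz (n : ℕ) : n < 2 ^ sz n := sz_nat_le.1 le_rfl

theorem sz_nat_mono {a b : ℕ} (h : a ≤ b) : sz a ≤ sz b :=
  sz_nat_le.2 (h.trans_lt (lt_two_pow_sz b))

theorem sz_nat_le_self (n : ℕ) : sz n ≤ n := sz_nat_le.2 Nat.lt_two_pow_self

/-- The number with the given binary digits, least significant first. -/
def ofB (l : List Bool) : ℕ := l.foldr Nat.bit 0

theorem ofB_bits (n : ℕ) : ofB n.bits = n := by
  induction n using Nat.binaryRec' with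
  | zero => simp [ofB]
  | bit b n h ih => rw [Nat.bits_append_bit n b h]; simp only [ofB, List.foldr_cons] at *; rw [ih]

theorem ofB_append (l : List Bool) (b : Bool) :
    ofB (l ++ [b]) = ofB l + 2 ^ l.length * b.toNat := by
  induction l with
  | nil => cases b <;> simp [ofB]
  | cons x l ih =>
    simp only [ofB, List.cons_append, List.foldr_cons, Nat.bit_val, List.length_cons] at *
    rw [ih]; ring

namespace PT
variable {α β γ δ σ : Type} [Enc α] [Enc β] [Enc γ] [Enc δ] [Enc σ]

theorem ofFintype [Fintype α] (f : α → β) : PT f := by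
  rcases isEmpty_or_nonempty α with h | ⟨⟨a⟩⟩
  · exact PTR.nil.congr fun a => h.elim a
  · exact ofFinite (f a) Finset.univ.toList f fun a h => absurd (by simp) h

theorem casesList {ι : Type} [Enc ι] {c : α → ι} (hc : PT c) (F : ι → α → β) (G : α → β)
    (hG : PT G) : ∀ (L : List ι), (∀ i ∈ L, PT (F i)) → (∀ a, c a ∉ L → F (c a) a = G a) →
      PT fun a => F (c a) a := by
  classical
  intro L
  induction L generalizing F with
  | nil => intro _ h; exact hG.congr fun a => (h a (by simp)).symm
  | cons i L ih =>
    intro h1 h2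
    have h3 := ih (update F i G) (fun j hj => by
      by_cases hji : j = i
      · subst hji; simpa using hG
      · simpa [hji] using h1 j (List.mem_cons_of_mem _ hj)) (fun a ha => by
      by_cases hji : c a = i
      · simp [hji]
      · simp [hji, h2 a (by simp [hji, ha])])
    refine (iteEq hc (const i) (h1 i List.mem_cons_self) h3).congr fun a => ?_
    by_cases hji : c a = i
    · simp [hji]
    · simp [hji]

theorem casesFintype {ι : Type} [Enc ι] [Fintype ι] {c : α → ι} (hc : PT c) (F : ι → α → β)
    (hF : ∀ i, PT (F i)) : PT fun a => F (c a) a := by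
  rcases isEmpty_or_nonempty ι with h | ⟨⟨i⟩⟩
  · exact PTR.nil.congr fun a => h.elim (c a)
  · exact casesList hc F (F i) (hF i) Finset.univ.toList (fun j _ => hF j)
      fun a h => absurd (by simp) h

theorem reverse [Inhabited β] {f : α → List β} (hf : PT f) : PT fun a => (f a).reverse := by
  have h := foldl_add (h := fun _ (s : List β) b => b :: s) hf (const [])
    (cons (snd snd') (fst snd')) (fun a => 2 * sz (f a) + 1)
    (((Bd.const 2).mul hf.sz_bd).add (Bd.const 1)) (by
      intro a s b hb
      have := sz_le_of_mem hb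
      rw [sz_cons]; omega)
  exact h.congr fun a => by simp

theorem filter [Inhabited β] {f : α → List β} {P : α → β → Bool} (hf : PT f)
    (hP : PT fun p : α × β => P p.1 p.2) : PT fun a => (f a).filter (P a) :=
  (flatMap (F := fun a b => bif P a b then [b] else []) hf
    (cond hP (cons snd' (const [])) (const []))).congr fun a => by
    induction f a with
    | nil => rfl
    | cons b l ih => cases h : P a b <;> simp [h, ← ih]

theorem any [Inhabited β] {f : α → List β} {P : α → β → Bool} (hf : PT f)
    (hP : PT fun p : α × β => P p.1 p.2) : PT fun a => (f a).any (P a) :=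
  (not (isEmpty (filter hf hP))).congr fun a => by
    induction f a with
    | nil => rfl
    | cons b l ih => cases h : P a b <;> simp [h, ← ih]

theorem all [Inhabited β] {f : α → List β} {P : α → β → Bool} (hf : PT f)
    (hP : PT fun p : α × β => P p.1 p.2) : PT fun a => (f a).all (P a) :=
  (not (any (P := fun a b => !P a b) hf (not hP))).congr fun a => by
    induction f a with
    | nil => rfl
    | cons b l ih => cases h : P a b <;> simp [h, ← ih]

theorem mem [Inhabited β] [DecidableEq β] {x : α → β} {f : α → List β} (hx : PT x) (hf : PT f) :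
    PT fun a => decide (x a ∈ f a) :=
  (any (P := fun a b => decide (x a = b)) hf (eq (comp hx fst') snd')).congr fun a => by
    rw [Bool.eq_iff_iff]; simp

theorem flatten {f : α → List (List β)} (hf : PT f) : PT fun a => (f a).flatten :=
  (flatMap (F := fun _ (l : List β) => l) hf snd').congr fun a => by simp

theorem getD_const (d : β) : ∀ (i : ℕ) {f : α → List β}, PT f → PT fun a => (f a).getD i d
  | 0, f, hf => (headD hf d).congr fun a => by cases f a <;> rfl
  | i + 1, f, hf => (getD_const d i (tail hf)).congr fun a => by cases f a <;> simp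

theorem set_const [Inhabited β] : ∀ (i : ℕ) {f : α → List β} {v : α → β}, PT f → PT v →
    PT fun a => (f a).set i (v a)
  | 0, f, v, hf, hv => (cond (isEmpty hf) (const []) (cons hv (tail hf))).congr fun a => by
      cases f a <;> rfl
  | i + 1, f, v, hf, hv => (cond (isEmpty hf) (const [])
      (cons (headD hf default) (set_const i (tail hf) hv))).congr fun a => by
      cases f a <;> rfl

/-! ### Raw strings as lists -/

theorem rawAppend {F G : α → Raw} (hF : PT F) (hG : PT G) :
    PT fun a => (⟨(F a).val ++ (G a).val⟩ : Raw) := PTR.append hF hG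

def rawStep (s : Raw × List Bool) : Raw × List Bool :=
  (⟨s.1.val.tail⟩, rawCaseF s.1.val s.2 (s.2 ++ [false]) (s.2 ++ [true]))

theorem rawStep_iter : ∀ (k : ℕ) (x acc : Bits),
    rawStep^[k] (⟨x⟩, acc) = (⟨x.drop k⟩, acc ++ x.take k) := by
  intro k
  induction k with
  | zero => simp
  | succ k ih =>
    intro x acc
    rw [Function.iterate_succ_apply, rawStep, ih]
    rcases x with _ | ⟨_ | _, x⟩ <;> simp [rawCaseF]

theorem sz_listBool (l : List Bool) : sz l = 3 * l.length := by
  induction l with
  | nil => rfl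
  | cons b l ih => rw [sz_cons, sz_bool, ih, List.length_cons]; omega

theorem rawToList : PT fun r : Raw => r.val := by
  have hs : PT rawStep := pair (rawTail fst') (rawCase fst' snd' (append snd' (const [false]))
    (append snd' (const [true])))
  have h := iterate (cnt := fun r : Raw => r) hs id (pair id (const []))
    (fun r => 5 * sz r + 1) (((Bd.const 5).mul Bd.self).add (Bd.const 1)) (by
      rintro ⟨x⟩ k _
      rw [rawStep_iter, sz_prod, sz_listBool]
      simp only [sz, enc_raw, List.length_drop, List.nil_append, List.length_take]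
      omega)
  refine (snd h).congr ?_
  rintro ⟨x⟩
  rw [rawStep_iter]
  simp [sz, enc_raw]

theorem listToRaw : PT fun l : List Bool => (⟨l⟩ : Raw) := by
  have h := foldl_add (h := fun (_ : List Bool) (s : Raw) (b : Bool) => (⟨s.val ++ [b]⟩ : Raw))
    id (const ⟨[]⟩) (rawAppend (G := fun p : List Bool × Raw × Bool => ⟨enc p.2.2⟩) (fst snd')
      (comp (G := fun b : Bool => (⟨enc b⟩ : Raw)) toRaw (snd snd'))) (fun _ => 1) (Bd.const 1)
    (by intro a s b _; simp [sz, enc_raw])
  refine h.congr fun l => ?_
  have : ∀ (l : List Bool) (s : Raw),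
      l.foldl (fun (s : Raw) (b : Bool) => (⟨s.val ++ [b]⟩ : Raw)) s = ⟨s.val ++ l⟩ := by
    intro l
    induction l with
    | nil => simp
    | cons b l ih => intro s; simp [ih]
  simp [this]

/-- The encoding itself, as a list of bits. -/
theorem encList : PT fun a : α => (enc a : List Bool) :=
  comp (G := fun r : Raw => r.val) (F := fun a : α => (⟨enc a⟩ : Raw)) rawToList toRaw

/-! ### Binary numbers -/

theorem bit {b : α → Bool} {n : α → ℕ} (hb : PT b) (hn : PT n) :
    PT fun a => Nat.bit (b a) (n a) := by
  have h1 : PTR (fun a : α => enc a) fun a => enc (b a) ++ enc (n a) := PTR.append hb hn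
  have h2 : PT fun a => bif b a then 1 else 0 := cond hb (const 1) (const 0)
  refine (PTR.case hn h2 h1 h1).congr fun a => ?_
  beta_reduce
  by_cases h0 : n a = 0
  · rw [h0, enc_nat, encodeNat_zero]
    cases b a <;> rfl
  · rw [enc_nat (Nat.bit _ _), encodeNat_bit _ _ (fun h => absurd h h0), enc_bool, ← enc_nat]
    have : enc (n a) ≠ [] := fun h => h0 (enc_injective (h.trans encodeNat_zero.symm))
    rcases hx : enc (n a) with _ | ⟨_ | _, l⟩
    · exact absurd hx this
    · rfl
    · rfl

theorem bits {n : α → ℕ} (hn : PT n) : PT fun a => (n a).bits :=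
  (comp encList hn).congr fun a => encodeNat_eq_bits (n a)

theorem sz_bit_le (b : Bool) (n : ℕ) : sz (Nat.bit b n) ≤ sz n + 1 := by
  rw [sz_nat_le, Nat.bit_val, pow_succ]
  have := lt_two_pow_sz n
  cases b <;> simp <;> omega

theorem ofB_pt {l : α → List Bool} (hl : PT l) : PT fun a => ofB (l a) := by
  have h := foldl_add (h := fun (_ : α) (s : ℕ) (b : Bool) => Nat.bit b s) (reverse hl) (const 0)
    (bit (snd snd') (fst snd')) (fun _ => 1) (Bd.const 1) (fun _ s b _ => sz_bit_le b s)
  exact h.congr fun a => by simp [ofB, List.foldl_reverse]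

theorem div2 {n : α → ℕ} (hn : PT n) : PT fun a => n a / 2 := by
  refine (PTR.tail hn).congr fun a => ?_
  beta_reduce
  generalize n a = m
  induction m using Nat.binaryRec' with
  | zero => simp [enc_nat, encodeNat_zero]
  | bit b m h _ =>
    rw [enc_nat, encodeNat_bit b m h, enc_nat]
    rw [show Nat.bit b m / 2 = m by rw [Nat.bit_val]; cases b <;> simp; omega]
    rfl

theorem bodd {n : α → ℕ} (hn : PT n) : PT fun a => (n a).bodd := by
  refine (headD (bits hn) false).congr fun a => ?_
  generalize n a = m
  induction m using Nat.binaryRec' with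
  | zero => simp
  | bit b m h _ => rw [Nat.bits_append_bit m b h]; simp

def addStep (s : ℕ × ℕ × Bool × List Bool) : ℕ × ℕ × Bool × List Bool :=
  (s.1 / 2, s.2.1 / 2, (s.1.bodd && s.2.1.bodd) || (s.2.2.1 && (s.1.bodd || s.2.1.bodd)),
    s.2.2.2 ++ [bif s.2.2.1 then (bif s.1.bodd then s.2.1.bodd else !s.2.1.bodd)
      else (bif s.1.bodd then !s.2.1.bodd else s.2.1.bodd)])

theorem addStep_iter (k : ℕ) : ∀ s : ℕ × ℕ × Bool × List Bool,
    (addStep^[k] s).1 = s.1 / 2 ^ k ∧ (addStep^[k] s).2.1 = s.2.1 / 2 ^ k ∧
    (addStep^[k] s).2.2.2.length = s.2.2.2.length + k ∧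
    ofB (addStep^[k] s).2.2.2 + 2 ^ (s.2.2.2.length + k) *
      ((addStep^[k] s).1 + (addStep^[k] s).2.1 + (addStep^[k] s).2.2.1.toNat) =
    ofB s.2.2.2 + 2 ^ s.2.2.2.length * (s.1 + s.2.1 + s.2.2.1.toNat) := by
  induction k with
  | zero => intro s; simp
  | succ k ih =>
    rintro ⟨a, b, c, l⟩
    rw [Function.iterate_succ_apply]
    obtain ⟨h1, h2, h3, h4⟩ := ih (addStep (a, b, c, l))
    refine ⟨?_, ?_, ?_, ?_⟩
    · rw [h1]; simp [addStep, Nat.div_div_eq_div_mul, pow_succ']
    · rw [h2]; simp [addStep, Nat.div_div_eq_div_mul, pow_succ']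
    · rw [h3]; simp [addStep]; omega
    · have e : (addStep (a, b, c, l)).2.2.2.length + k = l.length + (k + 1) := by
        simp [addStep]; omega
      rw [e] at h4
      rw [h4]
      simp only [addStep, ofB_append, List.length_append, List.length_singleton, pow_succ]
      have ha := Nat.bodd_add_div2 a
      have hb := Nat.bodd_add_div2 b
      rw [Nat.div2_val] at ha hb
      generalize a / 2 = a' at *
      generalize b / 2 = b' at *
      generalize a.bodd = x at *
      generalize b.bodd = y at *
      subst ha hb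
      generalize 2 ^ l.length = P
      cases x <;> cases y <;> cases c <;> simp <;> ring

theorem add {m n : α → ℕ} (hm : PT m) (hn : PT n) : PT fun a => m a + n a := by
  have hb1 : PT fun s : ℕ × ℕ × Bool × List Bool => s.1.bodd := bodd fst'
  have hb2 : PT fun s : ℕ × ℕ × Bool × List Bool => s.2.1.bodd := bodd (fst snd')
  have hc : PT fun s : ℕ × ℕ × Bool × List Bool => s.2.2.1 := fst (snd snd')
  have hs : PT addStep := pair (div2 fst') (pair (div2 (fst snd'))
    (pair (or (and hb1 hb2) (and hc (or hb1 hb2))) (append (snd (snd snd'))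
      (cons (cond hc (cond hb1 hb2 (not hb2)) (cond hb1 (not hb2) hb2)) (const [])))))
  have hp := pair hm hn
  have h := iterate (cnt := fun a => (m a, n a)) hs hp (pair hm (pair hn (const (false, []))))
    (fun a => 7 * sz (m a, n a) + 5) (((Bd.const 7).mul hp.sz_bd).add (Bd.const 5)) (by
      intro a k hk
      obtain ⟨h1, h2, h3, -⟩ := addStep_iter k (m a, n a, false, [])
      generalize addStep^[k] (m a, n a, false, []) = s at *
      obtain ⟨x, y, c, l⟩ := s
      simp only [List.length_nil, zero_add] at h1 h2 h3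
      have e1 : sz x ≤ sz (m a) := sz_nat_mono (h1 ▸ Nat.div_le_self _ _)
      have e2 : sz y ≤ sz (n a) := sz_nat_mono (h2 ▸ Nat.div_le_self _ _)
      rw [sz_prod, sz_prod, sz_prod, sz_bool, sz_listBool, h3]
      rw [sz_prod] at hk ⊢
      omega)
  refine (ofB_pt (snd (snd (snd h)))).congr fun a => ?_
  obtain ⟨h1, h2, h3, h4⟩ := addStep_iter (sz (m a, n a)) (m a, n a, false, [])
  generalize addStep^[sz (m a, n a)] (m a, n a, false, []) = s at *
  obtain ⟨x, y, c, l⟩ := s
  simp only [List.length_nil, zero_add, pow_zero, one_mul, Bool.toNat_false, add_zero] at *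
  have e1 := lt_two_pow_sz (m a)
  have e2 := lt_two_pow_sz (n a)
  have e3 : 2 ^ sz (m a) + 2 ^ sz (n a) ≤ 2 ^ sz (m a, n a) := by
    rw [sz_prod]
    have i1 : 2 ^ sz (m a) ≤ 2 ^ (2 * sz (m a) + sz (n a)) := Nat.pow_le_pow_right (by omega) (by omega)
    have i2 : 2 ^ sz (n a) ≤ 2 ^ (2 * sz (m a) + sz (n a)) := Nat.pow_le_pow_right (by omega) (by omega)
    rw [show 2 * sz (m a) + 1 + sz (n a) = 2 * sz (m a) + sz (n a) + 1 by ring, pow_succ]
    omega
  have : x + y + c.toNat = 0 := by
    by_contra hne
    have : 2 ^ sz (m a, n a) ≤ 2 ^ sz (m a, n a) * (x + y + c.toNat) :=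
      Nat.le_mul_of_pos_right _ (by omega)
    simp only [ofB, List.foldr_nil] at h4
    omega
  rw [this] at h4
  simpa [ofB] using h4

theorem succ {n : α → ℕ} (hn : PT n) : PT fun a => n a + 1 := add hn (const 1)

theorem sz_add_le (a b : ℕ) : sz (a + b) ≤ sz a + sz b + 1 := by
  rw [sz_nat_le, pow_succ, pow_add]
  have e1 := lt_two_pow_sz a
  have e2 := lt_two_pow_sz b
  have e3 : 0 < 2 ^ sz a := by positivity
  have e4 : 0 < 2 ^ sz b := by positivity
  nlinarith

theorem length [Inhabited β] {f : α → List β} (hf : PT f) : PT fun a => (f a).length := by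
  have h := foldl_add (h := fun (_ : α) (s : ℕ) (_ : β) => s + 1) hf (const 0)
    (succ (fst snd')) (fun _ => 2) (Bd.const 2) (fun _ s b _ => by
      have := sz_add_le s 1
      have : sz (1 : ℕ) ≤ 1 := sz_nat_le_self 1
      omega)
  refine h.congr fun a => ?_
  have : ∀ (l : List β) (s : ℕ), l.foldl (fun s _ => s + 1) s = s + l.length := by
    intro l
    induction l with
    | nil => simp
    | cons b l ih => intro s; simp [ih]; omega
  simp [this]

theorem mul {m n : α → ℕ} (hm : PT m) (hn : PT n) : PT fun a => m a * n a := by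
  have h := foldl_add (h := fun (a : α) (s : ℕ) (b : Bool) => s + s + bif b then n a else 0)
    (reverse (bits hm)) (const 0)
    (add (add (fst snd') (fst snd')) (cond (snd snd') (comp hn fst') (const 0)))
    (fun a => sz (n a) + 2) (hn.sz_bd.add (Bd.const 2)) (fun a s b _ => by
      have h1 := sz_add_le (s + s) (bif b then n a else 0)
      have h2 := sz_bit_le false s
      rw [show Nat.bit false s = s + s by simp [Nat.bit_val]; omega] at h2
      have h3 : sz (bif b then n a else 0) ≤ sz (n a) := sz_nat_mono (by cases b <;> simp)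
      omega)
  refine h.congr fun a => ?_
  have : ∀ l : List Bool, l.reverse.foldl (fun s b => s + s + bif b then n a else 0) 0 =
      ofB l * n a := by
    intro l
    rw [List.foldl_reverse]
    induction l with
    | nil => simp [ofB]
    | cons b l ih =>
      simp only [List.foldr_cons, ih, ofB, Nat.bit_val]
      cases b <;> simp <;> ring
  rw [this, ofB_bits]

def leStep (s : ℕ × ℕ × Bool) : ℕ × ℕ × Bool :=
  (s.1 / 2, s.2.1 / 2, bif s.1.bodd then (s.2.1.bodd && s.2.2) else (s.2.1.bodd || s.2.2))

theorem leStep_iter (k : ℕ) (a b : ℕ) :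
    leStep^[k] (a, b, true) = (a / 2 ^ k, b / 2 ^ k, decide (a % 2 ^ k ≤ b % 2 ^ k)) := by
  induction k with
  | zero => simp [Nat.mod_one]
  | succ k ih =>
    rw [Function.iterate_succ_apply', ih, leStep]
    simp only [Nat.div_div_eq_div_mul, ← pow_succ, Nat.mod_pow_succ, Prod.mk.injEq, true_and]
    have ha : a % 2 ^ k < 2 ^ k := Nat.mod_lt _ (by positivity)
    have hb : b % 2 ^ k < 2 ^ k := Nat.mod_lt _ (by positivity)
    rw [Nat.mod_two_of_bodd, Nat.mod_two_of_bodd]
    cases (a / 2 ^ k).bodd <;> cases (b / 2 ^ k).bodd <;> simp <;> omega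

theorem le {m n : α → ℕ} (hm : PT m) (hn : PT n) : PT fun a => decide (m a ≤ n a) := by
  have hs : PT leStep := pair (div2 fst') (pair (div2 (fst snd'))
    (cond (bodd fst') (and (bodd (fst snd')) (snd snd')) (or (bodd (fst snd')) (snd snd'))))
  have hp := pair hm hn
  have h := iterate (cnt := fun a => (m a, n a)) hs hp (pair hm (pair hn (const true)))
    (fun a => 2 * sz (m a, n a) + 3) (((Bd.const 2).mul hp.sz_bd).add (Bd.const 3)) (by
      intro a k _
      rw [leStep_iter, sz_prod, sz_prod, sz_prod, sz_bool]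
      have e1 : sz (m a / 2 ^ k) ≤ sz (m a) := sz_nat_mono (Nat.div_le_self _ _)
      have e2 : sz (n a / 2 ^ k) ≤ sz (n a) := sz_nat_mono (Nat.div_le_self _ _)
      omega)
  refine (snd (snd h)).congr fun a => ?_
  rw [leStep_iter]
  have e1 : m a < 2 ^ sz (m a, n a) := sz_nat_le.1 (by rw [sz_prod]; omega)
  have e2 : n a < 2 ^ sz (m a, n a) := sz_nat_le.1 (by rw [sz_prod]; omega)
  rw [Nat.mod_eq_of_lt e1, Nat.mod_eq_of_lt e2]

theorem lt {m n : α → ℕ} (hm : PT m) (hn : PT n) : PT fun a => decide (m a < n a) :=
  (not (le hn hm)).congr fun a => by rw [Bool.eq_iff_iff]; simp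

theorem natCastInt {n : α → ℕ} (hn : PT n) : PT fun a => ((n a : ℕ) : ℤ) :=
  PTR.congr (pair hn (const (0 : ℕ))) fun a => by
    change enc (n a, (0 : ℕ)) = enc (((n a : ℤ)).toNat, (-(n a : ℤ)).toNat)
    simp

theorem natCastRat {n : α → ℕ} (hn : PT n) : PT fun a => ((n a : ℕ) : ℚ) :=
  PTR.congr (pair (natCastInt hn) (const (1 : ℕ))) fun a => by
    change enc (((n a : ℕ) : ℤ), (1 : ℕ)) = enc (((n a : ℕ) : ℚ).num, ((n a : ℕ) : ℚ).den)
    simp

/-! ### Unary clocks -/

theorem clockPow {l : α → List Bool} (hl : PT l) :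
    ∀ k : ℕ, PT fun a => List.replicate ((l a).length ^ k) true
  | 0 => (const [true]).congr fun a => by simp
  | k + 1 => (flatMap (F := fun a (_ : Bool) => List.replicate ((l a).length ^ k) true) hl
      (comp (clockPow hl k) fst')).congr fun a => by
      apply List.eq_replicate_iff.2
      constructor
      · simp [pow_succ']
      · intro b hb
        obtain ⟨_, _, h⟩ := List.mem_flatMap.1 hb
        exact List.eq_of_mem_replicate h

theorem clock {l : α → List Bool} (hl : PT l) (p : Polynomial ℕ) :
    PT fun a => List.replicate (p.eval (l a).length) true := by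
  induction p using Polynomial.induction_on' with
  | add p q hp hq => exact (append hp hq).congr fun a => by simp
  | monomial n c =>
    refine (flatMap (F := fun a (_ : Bool) => List.replicate ((l a).length ^ n) true)
      (const (List.replicate c true)) (comp (clockPow hl n) fst')).congr fun a => ?_
    apply List.eq_replicate_iff.2
    constructor
    · simp
    · intro b hb
      obtain ⟨_, _, h⟩ := List.mem_flatMap.1 hb
      exact List.eq_of_mem_replicate h

end PT

end Pool.Agent.Lib.helper82
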