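import Pool.Agent.Lib.helper82.Sim

/-! Total polynomial time decoders, and more list and number functions. -/

namespace Pool.Agent.Lib.helper82

open Function N487b59b3 Computability

/-- A total polynomial time decoder that inverts the encoding. -/
def Prs (α : Type) [Enc α] : Prop := ∃ p : List Bool → α, PT p ∧ ∀ a, p (enc a) = a

theorem length_ufst_add_usnd : ∀ x : Bits, (ufst x).length + (usnd x).length ≤ x.length
  | [] => by simp [ufst, usnd]
  | [true] => by simp [ufst, usnd]
  | false :: l => by simp [ufst, usnd]
  | true :: _ :: l => by have := length_ufst_add_usnd l; simp [ufst, usnd]; omega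

namespace PT
variable {α β γ : Type} [Enc α] [Enc β] [Enc γ]

theorem ufstL {f : α → List Bool} (hf : PT f) : PT fun a => (ufst (f a) : List Bool) :=
  comp (G := fun r : Raw => r.val) (F := fun a => ⟨ufst (f a)⟩) rawToList
    (PTR.fst (comp listToRaw hf))

theorem usndL {f : α → List Bool} (hf : PT f) : PT fun a => (usnd (f a) : List Bool) :=
  comp (G := fun r : Raw => r.val) (F := fun a => ⟨usnd (f a)⟩) rawToList
    (PTR.snd (comp listToRaw hf))

def blockStep (s : List Bool × List (List Bool)) : List Bool × List (List Bool) :=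
  bif s.1.isEmpty then s else (usnd s.1, s.2 ++ [ufst s.1])

theorem blockStep_iter : ∀ (l : List (List Bool)) (k : ℕ) (acc : List (List Bool)),
    l.length ≤ k → blockStep^[k] ((l.map delimit).flatten, acc) = ([], acc ++ l) := by
  intro l
  induction l with
  | nil => intro k acc _; simpa using Function.iterate_fixed (f := blockStep) rfl k
  | cons b l ih =>
    intro k acc hk
    obtain ⟨k, rfl⟩ : ∃ j, k = j + 1 := ⟨k - 1, by simp at hk; omega⟩
    rw [Function.iterate_succ_apply]
    have e : blockStep (((b :: l).map delimit).flatten, acc) =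
        ((l.map delimit).flatten, acc ++ [b]) := by
      have : (delimit b ++ (l.map delimit).flatten).isEmpty = false := by cases b <;> rfl
      simp only [blockStep, List.map_cons, List.flatten_cons, this, cond_false, usnd_delimit,
        ufst_delimit]
    rw [e, ih k _ (by simpa using hk)]
    simp

theorem blocks : ∃ p : List Bool → List (List Bool), PT p ∧
    ∀ l : List (List Bool), p (l.map delimit).flatten = l := by
  have hs : PT blockStep := cond (isEmpty fst') id
    (pair (usndL fst') (append snd' (cons (ufstL fst') (const []))))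
  have h := foldl_add (h := fun (_ : List Bool) s (_ : Bool) => blockStep s) id
    (pair id (const [])) (comp hs (fst snd')) (fun _ => 1) (Bd.const 1) (by
      rintro _ ⟨r, acc⟩ _ _
      have := length_ufst_add_usnd r
      rcases r with _ | ⟨b, r⟩
      · simp [blockStep]
      · have e : blockStep (b :: r, acc) = (usnd (b :: r), acc ++ [ufst (b :: r)]) := rfl
        rw [e]
        generalize b :: r = x at *
        simp only [sz_prod, sz_append, sz_cons, sz_nil, sz_listBool]
        omega)
  refine ⟨_, snd h, fun l => ?_⟩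
  rw [foldl_const_iter, blockStep_iter l _ _ (length_le_length_flatten_delimit l)]
  simp

theorem dedup [Inhabited β] [DecidableEq β] {f : α → List β} (hf : PT f) :
    PT fun a => (f a).dedup := by
  have h := foldl_add (h := fun _ (s : List β) b => if b ∈ s then s else b :: s) (reverse hf)
    (const []) (ite (mem (snd snd') (fst snd')) (fst snd') (cons (snd snd') (fst snd')))
    (fun a => 2 * sz (f a) + 1) (((Bd.const 2).mul hf.sz_bd).add (Bd.const 1)) (by
      intro a s b hb
      have := sz_le_of_mem (List.mem_reverse.1 hb)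
      split_ifs
      · omega
      · rw [sz_cons]; omega)
  refine h.congr fun a => ?_
  rw [List.foldl_reverse]
  induction f a with
  | nil => rfl
  | cons b l ih => simp [ih, List.dedup_cons]

theorem sz_mul_le (a b : ℕ) : sz (a * b) ≤ sz a + sz b := by
  rw [sz_nat_le, pow_add]
  exact Nat.mul_lt_mul'' (lt_two_pow_sz a) (lt_two_pow_sz b)

/-- Powers with an exponent given in unary. -/
theorem powU [Inhabited β] {m : α → ℕ} {l : α → List β} (hm : PT m) (hl : PT l) :
    PT fun a => m a ^ (l a).length := by
  have h := foldl_add (h := fun a (s : ℕ) (_ : β) => s * m a) hl (const 1)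
    (mul (fst snd') (comp hm fst')) (fun a => sz (m a)) hm.sz_bd
    (fun a s _ _ => sz_mul_le s (m a))
  refine h.congr fun a => ?_
  have : ∀ (l : List β) (s : ℕ), l.foldl (fun s _ => s * m a) s = s * m a ^ l.length := by
    intro l
    induction l with
    | nil => simp
    | cons b l ih => intro s; simp [ih, pow_succ', mul_assoc]
  simp [this]

theorem take1 [Inhabited β] {f : α → List β} (hf : PT f) : PT fun a => (f a).take 1 :=
  (cond (isEmpty hf) (const []) (cons (headD hf default) (const []))).congr fun a => by
    cases f a <;> simp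

end PT

namespace Prs
variable {α β : Type} [Enc α] [Enc β]

theorem bool : Prs Bool := ⟨_, PT.headD PT.id false, fun _ => rfl⟩

theorem nat : Prs ℕ := ⟨_, PT.ofB_pt PT.id, fun n => by
  rw [enc_nat, encodeNat_eq_bits, ofB_bits]⟩

theorem prod (ha : Prs α) (hb : Prs β) : Prs (α × β) := by
  obtain ⟨p, hp, ep⟩ := ha
  obtain ⟨q, hq, eq⟩ := hb
  exact ⟨_, PT.pair (PT.comp hp (PT.ufstL PT.id)) (PT.comp hq (PT.usndL PT.id)), fun a => by
    rw [enc_prod', ufst_delimit, usnd_delimit, ep, eq]⟩

theorem list (ha : Prs α) : Prs (List α) := by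
  obtain ⟨p, hp, ep⟩ := ha
  obtain ⟨b, hb, eb⟩ := PT.blocks
  refine ⟨_, PT.map (F := fun _ r => p r) hb (PT.comp hp PT.snd'), fun l => ?_⟩
  have : enc l = ((l.map enc).map delimit).flatten := rfl
  rw [this, eb, List.map_map]
  conv_rhs => rw [← List.map_id l]
  exact List.map_congr_left fun a _ => ep a

/-- Extension of a function along the encoding, with a default value on other strings. -/
theorem extend (ha : Prs α) {F : α → β} (hF : PT F) (d : β) :
    PT (Function.extend (enc : α → List Bool) F fun _ => d) := by
  classical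
  obtain ⟨p, hp, ep⟩ := ha
  refine (PT.iteEq (PT.comp PT.encList hp) PT.id (PT.comp hF hp) (PT.const d)).congr fun x => ?_
  split_ifs with h
  · conv_rhs => rw [← h, enc_injective.extend_apply]
  · rw [Function.extend_apply']
    rintro ⟨a, rfl⟩
    exact h (by rw [ep])

end Prs

/-! ### Polynomial bounds -/

theorem Bd.pow {α : Type} {s T : α → ℕ} (h : Bd s T) : ∀ c : ℕ, Bd s fun a => T a ^ c
  | 0 => (Bd.const 1).of_le fun a => by simp
  | c + 1 => ((Bd.pow h c).mul h).of_le fun a => by rw [pow_succ]

theorem poly_le_pow (p : Polynomial ℕ) : ∃ e, ∀ z, 2 ≤ z → p.eval z ≤ z ^ e := by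
  induction p using Polynomial.induction_on' with
  | add p q hp hq =>
    obtain ⟨a, ha⟩ := hp
    obtain ⟨b, hb⟩ := hq
    refine ⟨a + b + 1, fun z hz => ?_⟩
    have h1 := (ha z hz).trans (Nat.pow_le_pow_right (by omega) (Nat.le_add_right a b))
    have h2 := (hb z hz).trans (Nat.pow_le_pow_right (by omega) (Nat.le_add_left b a))
    rw [Polynomial.eval_add, pow_succ]
    nlinarith
  | monomial n c =>
    refine ⟨c + n, fun z hz => ?_⟩
    rw [Polynomial.eval_monomial, pow_add]
    exact Nat.mul_le_mul_right _ (Nat.lt_two_pow_self.le.trans (Nat.pow_le_pow_left hz c))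

theorem Bd.le_pow {T : ℕ → ℕ} (h : Bd (fun z => z) T) : ∃ e, ∀ z, 2 ≤ z → T z ≤ z ^ e := by
  obtain ⟨p, hp⟩ := h
  obtain ⟨e, he⟩ := poly_le_pow p
  exact ⟨e, fun z hz => (hp z).trans (he z hz)⟩

theorem sz_le_of_forall {α : Type} [Enc α] (B : ℕ) : ∀ l : List α, (∀ a ∈ l, sz a ≤ B) →
    sz l ≤ l.length * (2 * B + 1)
  | [], _ => by simp [sz_nil]
  | a :: l, h => by
    have h1 := h a List.mem_cons_self
    have h2 := sz_le_of_forall B l fun b hb => h b (List.mem_cons_of_mem _ hb)
    rw [sz_cons, List.length_cons]
    nlinarith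

theorem sz_le_of_sublist {α : Type} [Enc α] {l l' : List α} (h : l.Sublist l') : sz l ≤ sz l' := by
  induction h with
  | slnil => exact le_rfl
  | cons a _ ih => rw [sz_cons]; omega
  | cons_cons a _ ih => rw [sz_cons, sz_cons]; omega

end Pool.Agent.Lib.helper82
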