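import Pool.Agent.Lib.helper82.Prog
import Pool.Prelude.Def_H_e9e0c647

/-! Polynomial time functions on bit strings and their closure properties. -/

namespace Pool.Agent.Lib.helper82

open Function N487b59b3

/-- `T` is bounded by a polynomial in the size `sz`. -/
def Bd {α : Type} (sz T : α → ℕ) : Prop := ∃ p : Polynomial ℕ, ∀ a, T a ≤ p.eval (sz a)

theorem eval_mono (p : Polynomial ℕ) {a b : ℕ} (h : a ≤ b) : p.eval a ≤ p.eval b := by
  induction p using Polynomial.induction_on' with
  | add p q hp hq => simp only [Polynomial.eval_add]; omega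
  | monomial n c =>
    simp only [Polynomial.eval_monomial]
    exact Nat.mul_le_mul_left _ (Nat.pow_le_pow_left h n)

namespace Bd
variable {α β : Type} {sz T U : α → ℕ}

theorem const (c : ℕ) : Bd sz (fun _ => c) := ⟨Polynomial.C c, fun _ => by simp⟩
theorem self : Bd sz sz := ⟨Polynomial.X, fun _ => by simp⟩
theorem add (h : Bd sz T) (h' : Bd sz U) : Bd sz (fun a => T a + U a) := by
  obtain ⟨p, hp⟩ := h; obtain ⟨q, hq⟩ := h'
  exact ⟨p + q, fun a => by simpa using Nat.add_le_add (hp a) (hq a)⟩
theorem mul (h : Bd sz T) (h' : Bd sz U) : Bd sz (fun a => T a * U a) := by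
  obtain ⟨p, hp⟩ := h; obtain ⟨q, hq⟩ := h'
  exact ⟨p * q, fun a => by simpa using Nat.mul_le_mul (hp a) (hq a)⟩
theorem of_le (h : Bd sz U) (hle : ∀ a, T a ≤ U a) : Bd sz T := by
  obtain ⟨p, hp⟩ := h
  exact ⟨p, fun a => (hle a).trans (hp a)⟩
theorem eval (p : Polynomial ℕ) (h : Bd sz T) : Bd sz (fun a => p.eval (T a)) := by
  obtain ⟨q, hq⟩ := h
  exact ⟨p.comp q, fun a => by rw [Polynomial.eval_comp]; exact eval_mono p (hq a)⟩
theorem comp {sz' T' : β → ℕ} (h : Bd sz' T') (f : α → β) (hf : Bd sz (fun a => sz' (f a))) :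
    Bd sz (fun a => T' (f a)) := by
  obtain ⟨p, hp⟩ := h
  exact (hf.eval p).of_le fun a => hp (f a)
end Bd

def Run (p : Prog) (S S' : St) (T : ℕ) : Prop := ∃ n ≤ T, Exec p S S' n

namespace Run
variable {p q : Prog} {S S' S'' : St} {T U : ℕ}

theorem mono (h : Run p S S' T) (hle : T ≤ U) : Run p S S' U := by
  obtain ⟨n, hn, h⟩ := h; exact ⟨n, hn.trans hle, h⟩
theorem cast {S₁ : St} (h : Run p S S' T) (e : S' = S₁) (hle : T ≤ U) : Run p S S₁ U :=
  e ▸ h.mono hle
theorem skip (S : St) : Run .skip S S 1 := ⟨1, le_rfl, .skip S⟩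
theorem push (r : ℕ) (b : Bool) (S : St) : Run (.push r b) S (update S r (b :: S r)) 1 :=
  ⟨1, le_rfl, .push r b S⟩
theorem pop (r : ℕ) (S : St) : Run (.pop r) S (update S r (S r).tail) 1 := ⟨1, le_rfl, .pop r S⟩
theorem seq (h : Run p S S' T) (h' : Run q S' S'' U) : Run (.seq p q) S S'' (T + U + 1) := by
  obtain ⟨n, hn, h⟩ := h; obtain ⟨m, hm, h'⟩ := h'
  exact ⟨n + m + 1, by omega, h.seq h'⟩
theorem caseE {r : ℕ} {e f t : Prog} (hh : (S r).head? = none) (h : Run e S S' T) :
    Run (.case r e f t) S S' (T + 1) := by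
  obtain ⟨n, hn, h⟩ := h; exact ⟨n + 1, by omega, .caseE hh h⟩
theorem caseF {r : ℕ} {e f t : Prog} (hh : (S r).head? = some false) (h : Run f S S' T) :
    Run (.case r e f t) S S' (T + 1) := by
  obtain ⟨n, hn, h⟩ := h; exact ⟨n + 1, by omega, .caseF hh h⟩
theorem caseT {r : ℕ} {e f t : Prog} (hh : (S r).head? = some true) (h : Run t S S' T) :
    Run (.case r e f t) S S' (T + 1) := by
  obtain ⟨n, hn, h⟩ := h; exact ⟨n + 1, by omega, .caseT hh h⟩
theorem loopE {r : ℕ} {b : Prog} (hh : S r = []) : Run (.loop r b) S S 1 :=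
  ⟨1, le_rfl, .loopE hh⟩
theorem loopN {r : ℕ} {b : Prog} (hh : S r ≠ []) (h : Run b S S' T)
    (h' : Run (.loop r b) S' S'' U) : Run (.loop r b) S S'' (T + U + 1) := by
  obtain ⟨n, hn, h⟩ := h; obtain ⟨m, hm, h'⟩ := h'
  exact ⟨n + m + 1, by omega, .loopN hh h h'⟩
theorem length_le (h : Run p S S' T) (k : ℕ) : (S' k).length ≤ (S k).length + T := by
  obtain ⟨n, hn, h⟩ := h; have := h.length_le k; omega
end Run

def clear (r : ℕ) : Prog := .loop r (.pop r)

theorem run_clear (r : ℕ) : ∀ (l : Bits) (S : St), S r = l →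
    Run (clear r) S (update S r []) (2 * l.length + 1) := by
  intro l
  induction l with
  | nil => intro S h; exact (Run.loopE h).cast (by rw [← h, update_eq_self]) (by simp)
  | cons x l ih =>
    intro S h
    refine (Run.loopN (by simp [h]) (Run.pop r S) (ih _ (by simp [h]))).cast (by simp) ?_
    simp; omega

/-- Pop the bits of `a` one by one and run `bf` or `bt`. -/
def forEach (a : ℕ) (bf bt : Prog) : Prog :=
  .loop a (.case a .skip (.seq (.pop a) bf) (.seq (.pop a) bt))

theorem run_forEach (a : ℕ) (bf bt : Prog) (F : Bool → St → St) (c : ℕ)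
    (hf : ∀ S, Run bf S (F false S) c) (ht : ∀ S, Run bt S (F true S) c)
    (hF : ∀ x S, F x S a = S a) : ∀ (l : Bits) (S : St), S a = l →
    Run (forEach a bf bt) S (l.foldl (fun S x => F x (update S a (S a).tail)) S)
      ((c + 4) * l.length + 1) := by
  intro l
  induction l with
  | nil => intro S h; exact (Run.loopE h).cast rfl (by simp)
  | cons x l ih =>
    intro S h
    have h1 : Run (.case a .skip (.seq (.pop a) bf) (.seq (.pop a) bt)) S
        (F x (update S a (S a).tail)) (c + 3) := by
      cases x
      · exact (Run.caseF (by simp [h]) ((Run.pop a S).seq (hf _))).mono (by omega)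
      · exact (Run.caseT (by simp [h]) ((Run.pop a S).seq (ht _))).mono (by omega)
    refine (Run.loopN (by simp [h]) h1 (ih _ (by simp [hF, h]))).cast rfl ?_
    simp only [List.length_cons]; nlinarith

/-- Move `a` onto `b`, replacing each bit `x` by the word `w x` read backwards. -/
def pushes (b : ℕ) : Bits → Prog
  | [] => .skip
  | x :: l => .seq (.push b x) (pushes b l)

theorem run_pushes (b : ℕ) : ∀ (w : Bits) (S : St),
    Run (pushes b w) S (update S b (w.reverse ++ S b)) (2 * w.length + 1) := by
  intro w
  induction w with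
  | nil => intro S; exact (Run.skip S).cast (by simp) (by simp)
  | cons x l ih =>
    intro S
    refine ((Run.push b x S).seq (ih _)).cast (by simp) ?_
    simp; omega

def trans (a b : ℕ) (w : Bool → Bits) : Prog :=
  forEach a (pushes b (w false)) (pushes b (w true))

theorem fold_trans (a b : ℕ) (hab : a ≠ b) (w : Bool → Bits) : ∀ (l : Bits) (S : St), S a = l →
    l.foldl (fun (S : St) x => (fun x (S : St) => update S b ((w x).reverse ++ S b)) x
      (update S a (S a).tail)) S =
    update (update S a []) b ((l.flatMap w).reverse ++ S b) := by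
  intro l
  induction l with
  | nil =>
    intro S hl
    have : update S a [] = S := by rw [← hl, update_eq_self]
    simp [this]
  | cons x l ih =>
    intro S hl
    simp only [List.foldl_cons]
    rw [ih _ (by simp [hab, hl])]
    funext r
    by_cases h1 : r = b
    · subst h1; simp [hab.symm]
    · by_cases h2 : r = a
      · subst h2; simp [h1]
      · simp [h1, h2]

theorem run_trans (a b : ℕ) (hab : a ≠ b) (w : Bool → Bits) (hw : ∀ x, (w x).length ≤ 2) (S : St) :
    Run (trans a b w) S (update (update S a []) b (((S a).flatMap w).reverse ++ S b))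
      (9 * (S a).length + 1) := by
  have h := run_forEach a (pushes b (w false)) (pushes b (w true))
    (fun x S => update S b ((w x).reverse ++ S b)) 5
    (fun S => (run_pushes b _ S).mono (by have := hw false; omega))
    (fun S => (run_pushes b _ S).mono (by have := hw true; omega))
    (fun x S => by simp [hab]) (S a) S rfl
  exact h.cast (fold_trans a b hab w _ S rfl) (by omega)

def rev (a b : ℕ) : Prog := trans a b fun x => [x]

theorem run_rev (a b : ℕ) (hab : a ≠ b) (S : St) :
    Run (rev a b) S (update (update S a []) b ((S a).reverse ++ S b)) (9 * (S a).length + 1) := by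
  simpa [rev] using run_trans a b hab (fun x => [x]) (by simp) S

def rev2 (a b c : ℕ) : Prog :=
  forEach a (.seq (.push b false) (.push c false)) (.seq (.push b true) (.push c true))

theorem fold_rev2 (a b c : ℕ) (hab : a ≠ b) (hac : a ≠ c) (hbc : b ≠ c) :
    ∀ (l : Bits) (S : St), S a = l →
    l.foldl (fun (S : St) x => (fun x (S : St) => update (update S b (x :: S b)) c (x :: S c)) x
      (update S a (S a).tail)) S =
    update (update (update S a []) b (l.reverse ++ S b)) c (l.reverse ++ S c) := by
  intro l
  induction l with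
  | nil =>
    intro S hl
    have : update S a [] = S := by rw [← hl, update_eq_self]
    simp [this]
  | cons x l ih =>
    intro S hl
    simp only [List.foldl_cons]
    rw [ih _ (by simp [hab, hac, hl])]
    funext r
    by_cases h0 : r = c
    · subst h0; simp [hac.symm]
    by_cases h1 : r = b
    · subst h1; simp [hab.symm, h0]
    · by_cases h2 : r = a
      · subst h2; simp [h1, h0]
      · simp [h0, h1, h2]

theorem run_rev2 (a b c : ℕ) (hab : a ≠ b) (hac : a ≠ c) (hbc : b ≠ c) (S : St) :
    Run (rev2 a b c) S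
      (update (update (update S a []) b ((S a).reverse ++ S b)) c ((S a).reverse ++ S c))
      (7 * (S a).length + 1) := by
  have h := run_forEach a (.seq (.push b false) (.push c false))
    (.seq (.push b true) (.push c true))
    (fun x S => update (update S b (x :: S b)) c (x :: S c)) 3
    (fun S => ((Run.push b false S).seq (Run.push c false _)).cast (by simp [hbc.symm]) le_rfl)
    (fun S => ((Run.push b true S).seq (Run.push c true _)).cast (by simp [hbc.symm]) le_rfl)
    (fun x S => by simp [hab, hac]) (S a) S rfl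
  exact h.cast (fold_rev2 a b c hab hac hbc _ S rfl) (by omega)

/-- Prepend a copy of `a` to `b`, using the empty register `t`. -/
def copy (a b t : ℕ) : Prog := .seq (rev a t) (rev2 t a b)

theorem run_copy (a b t : ℕ) (hab : a ≠ b) (hat : a ≠ t) (hbt : b ≠ t) (S : St) (ht : S t = []) :
    Run (copy a b t) S (update S b (S a ++ S b)) (16 * (S a).length + 3) := by
  refine ((run_rev a t hat S).seq (run_rev2 t a b hat.symm hbt.symm hab _)).cast ?_ ?_
  · funext r
    by_cases h0 : r = b
    · subst h0; simp [ht, hab.symm, hbt]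
    by_cases h1 : r = a
    · subst h1; simp [ht, h0, hat]
    · by_cases h2 : r = t
      · subst h2; simp [h1, h0, ht]
      · simp [h0, h1, h2]
  · simp [ht]; omega

/-- Move `a` to the front of `b`, using the empty register `t`. -/
def move (a b t : ℕ) : Prog := .seq (rev a t) (rev t b)

theorem run_move (a b t : ℕ) (hab : a ≠ b) (hat : a ≠ t) (hbt : b ≠ t) (S : St) (ht : S t = []) :
    Run (move a b t) S (update (update S a []) b (S a ++ S b)) (18 * (S a).length + 3) := by
  refine ((run_rev a t hat S).seq (run_rev t b hbt.symm _)).cast ?_ ?_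
  · funext r
    by_cases h0 : r = b
    · subst h0; simp [ht, hab.symm, hbt]
    by_cases h1 : r = a
    · subst h1; simp [h0, hat]
    · by_cases h2 : r = t
      · subst h2; simp [h1, h0, ht]
      · simp [h0, h1, h2]
  · simp [ht]; omega

/-- Branch on the first bit. -/
def caseB (c e f t : Bits) : Bits :=
  match c with
  | [] => e
  | false :: _ => f
  | true :: _ => t

theorem delimit_eq (l : Bits) :
    delimit l = ((l.reverse.flatMap fun x => [x, true]).reverse) ++ [false] := by
  induction l with
  | nil => rfl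
  | cons x l ih => simp [delimit, ih]

def ufst : Bits → Bits
  | true :: b :: l => b :: ufst l
  | _ => []

def usnd : Bits → Bits
  | true :: _ :: l => usnd l
  | false :: l => l
  | _ => []

@[simp] theorem ufst_delimit (a b : Bits) : ufst (delimit a ++ b) = a := by
  induction a with
  | nil => simp [delimit, ufst]
  | cons x a ih => simp [delimit, ufst, ih]

@[simp] theorem usnd_delimit (a b : Bits) : usnd (delimit a ++ b) = b := by
  induction a with
  | nil => simp [delimit, usnd]
  | cons x a ih => simp [delimit, usnd, ih]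

theorem length_usnd_le : ∀ x : Bits, (usnd x).length ≤ x.length
  | [] => by simp [usnd]
  | [true] => by simp [usnd]
  | false :: l => by simp [usnd]
  | true :: _ :: l => by have := length_usnd_le l; simp [usnd]; omega

theorem length_ufst_le : ∀ x : Bits, (ufst x).length ≤ x.length
  | [] => by simp [ufst]
  | [true] => by simp [ufst]
  | false :: l => by simp [ufst]
  | true :: _ :: l => by have := length_ufst_le l; simp [ufst]; omega

def splitP (t a f : ℕ) : Prog :=
  .loop f (.case t (.pop f) (.seq (.pop t) (.pop f))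
    (.seq (.pop t) (.case t (.pop f) (.seq (.pop t) (.push a false))
      (.seq (.pop t) (.push a true)))))

theorem run_splitP (t a f : ℕ) (hta : t ≠ a) (htf : t ≠ f) (haf : a ≠ f) :
    ∀ (x : Bits) (S : St), S t = x → S f = [true] →
    Run (splitP t a f) S
      (update (update (update S f []) t (usnd x)) a ((ufst x).reverse ++ S a))
      (8 * x.length + 5)
  | [], S, hx, hf => by
    refine (Run.loopN (by simp [hf]) (Run.caseE (by simp [hx]) (Run.pop f S))
      (Run.loopE (by simp [hf]))).cast ?_ (by simp)
    funext r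
    by_cases h0 : r = a
    · subst h0; simp [haf, ufst]
    · by_cases h1 : r = t
      · subst h1; simp [h0, htf, hx, usnd]
      · simp [h0, h1, hf, update_apply]
  | false :: l, S, hx, hf => by
    refine (Run.loopN (by simp [hf]) (Run.caseF (by simp [hx]) ((Run.pop t S).seq (Run.pop f _)))
      (Run.loopE (by simp [hf, htf.symm]))).cast ?_ (by simp; omega)
    funext r
    by_cases h0 : r = a
    · subst h0; simp [haf, ufst, hta.symm]
    · by_cases h1 : r = t
      · subst h1; simp [h0, htf, hx, usnd]
      · simp [h0, h1, hf, update_apply, htf.symm]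
  | [true], S, hx, hf => by
    refine (Run.loopN (by simp [hf]) (Run.caseT (by simp [hx]) ((Run.pop t S).seq
      (Run.caseE (by simp [hx]) (Run.pop f _))))
      (Run.loopE (by simp [hf, htf.symm]))).cast ?_ (by simp)
    funext r
    by_cases h0 : r = a
    · subst h0; simp [haf, ufst, hta.symm]
    · by_cases h1 : r = t
      · subst h1; simp [h0, htf, hx, usnd]
      · simp [h0, h1, hf, update_apply, htf.symm]
  | true :: b :: l, S, hx, hf => by
    have h1 : Run (.case t (.pop f) (.seq (.pop t) (.push a false))
        (.seq (.pop t) (.push a true))) (update S t (S t).tail)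
        (update (update S t l) a (b :: S a)) 4 := by
      cases b
      · exact (Run.caseF (by simp [hx]) ((Run.pop t _).seq (Run.push a false _))).cast
          (by simp [hx, hta.symm]) le_rfl
      · exact (Run.caseT (by simp [hx]) ((Run.pop t _).seq (Run.push a true _))).cast
          (by simp [hx, hta.symm]) le_rfl
    refine (Run.loopN (by simp [hf]) (Run.caseT (by simp [hx]) ((Run.pop t S).seq h1))
      (run_splitP t a f hta htf haf l _ (by simp [hta]) (by simp [hf, htf.symm, haf.symm]))).cast
      ?_ (by simp; omega)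
    funext r
    by_cases h0 : r = a
    · subst h0; simp [ufst]
    · by_cases h1 : r = t
      · subst h1; simp [h0, usnd]
      · simp [h0, h1, update_apply]

/-- The string `f a` is computed from the string `ea a` in polynomial time. -/
def PTR {α : Type} (ea f : α → Bits) : Prop :=
  ∃ T : α → ℕ, Bd (fun a => (ea a).length) T ∧
    ∀ src dst fr : ℕ, src < fr → dst < fr → src ≠ dst →
      ∃ c : Prog, ∀ (a : α) (S : St), S src = ea a → (∀ r, fr ≤ r → S r = []) → S dst = [] →
        Run c S (update S dst (f a)) (T a)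

namespace PTR
variable {α β : Type} {ea f g : α → Bits}

theorem length_bd (h : PTR ea f) : Bd (fun a => (ea a).length) fun x => (f x).length := by
  obtain ⟨T, hT, h⟩ := h
  obtain ⟨c, hc⟩ := h 0 1 2 (by omega) (by omega) (by omega)
  refine hT.of_le fun x => ?_
  have := (hc x (update (fun _ => []) 0 (ea x)) (by simp) (fun r hr => by
    have : r ≠ 0 := by omega
    simp [this]) (by simp)).length_le 1
  simpa using this

theorem toTM2 {eb : β → Bits} {F : α → β} (h : PTR ea fun a => eb (F a)) :
    Nonempty (Turing.TM2ComputableInPolyTime ea eb F) := by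
  obtain ⟨T, hT, h⟩ := h
  obtain ⟨c, hc⟩ := h 0 1 2 (by omega) (by omega) (by omega)
  obtain ⟨p, hp⟩ := (hT.add ((Bd.const 2).mul Bd.self)).add (Bd.const 2)
  refine tm2_of_prog ea eb F (.seq c (clear 0)) p fun a => ?_
  have h1 := hc a (update (fun _ => []) 0 (ea a)) (by simp) (fun r hr => by
    have : r ≠ 0 := by omega
    simp [this]) (by simp)
  have h2 := h1.seq (run_clear 0 (ea a) _ (by simp))
  refine h2.cast ?_ ?_
  · funext r
    by_cases h0 : r = 0
    · subst h0; simp
    · by_cases h1 : r = 1
      · subst h1; simp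
      · simp [h0, h1]
  · have := hp a
    simp at this ⊢
    omega

theorem congr (h : PTR ea f) (e : ∀ a, f a = g a) : PTR ea g := by
  have : f = g := funext e
  exact this ▸ h

theorem nil : PTR ea fun _ => [] :=
  ⟨fun _ => 1, Bd.const 1, fun _ dst _ _ _ _ => ⟨.skip, fun _ S _ _ hd =>
    (Run.skip S).cast (by rw [← hd, update_eq_self]) le_rfl⟩⟩

theorem id : PTR ea ea := by
  refine ⟨fun x => 16 * (ea x).length + 3, ((Bd.const 16).mul Bd.self).add (Bd.const 3),
    fun src dst fr h1 h2 h3 => ⟨copy src dst fr, fun a S hx hS hd => ?_⟩⟩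
  exact (run_copy src dst fr h3 (by omega) (by omega) S (hS _ le_rfl)).cast (by simp [hd, hx])
    (by simp [hx])

theorem cons (b : Bool) (h : PTR ea f) : PTR ea fun x => b :: f x := by
  obtain ⟨T, hT, h⟩ := h
  refine ⟨fun x => T x + 2, hT.add (Bd.const 2), fun src dst fr h1 h2 h3 => ?_⟩
  obtain ⟨c, hc⟩ := h src dst fr h1 h2 h3
  refine ⟨.seq c (.push dst b), fun a S hx hS hd => ?_⟩
  exact ((hc a S hx hS hd).seq (Run.push dst b _)).cast (by simp) (by simp)

theorem tail (h : PTR ea f) : PTR ea fun x => (f x).tail := by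
  obtain ⟨T, hT, h⟩ := h
  refine ⟨fun x => T x + 2, hT.add (Bd.const 2), fun src dst fr h1 h2 h3 => ?_⟩
  obtain ⟨c, hc⟩ := h src dst fr h1 h2 h3
  refine ⟨.seq c (.pop dst), fun a S hx hS hd => ?_⟩
  exact ((hc a S hx hS hd).seq (Run.pop dst _)).cast (by simp) (by simp)

theorem comp {eb g : β → Bits} {F : α → β} (hg : PTR eb g) (hf : PTR ea fun a => eb (F a)) :
    PTR ea fun x => g (F x) := by
  have hl := hf.length_bd
  obtain ⟨T, hT, h⟩ := hf
  obtain ⟨U, hU, h'⟩ := hg
  refine ⟨fun x => T x + U (F x) + 2 * (eb (F x)).length + 3,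
    (((hT.add (hU.comp F hl)).add ((Bd.const 2).mul hl))).add (Bd.const 3),
    fun src dst fr h1 h2 h3 => ?_⟩
  obtain ⟨c, hc⟩ := h src fr (fr + 1) (by omega) (by omega) (by omega)
  obtain ⟨c', hc'⟩ := h' fr dst (fr + 1) (by omega) (by omega) (by omega)
  refine ⟨.seq c (.seq c' (clear fr)), fun a S hx hS hd => ?_⟩
  have hne : dst ≠ fr := by omega
  have r1 := hc a S hx (fun r hr => hS r (by omega)) (hS _ le_rfl)
  have r2 := hc' (F a) (update S fr (eb (F a))) (by simp) (fun r hr => by
    have : r ≠ fr := by omega
    simp [this, hS r (by omega)]) (by simp [hne, hd])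
  have r3 := r1.seq (r2.seq (run_clear fr (eb (F a)) _ (by simp [hne.symm])))
  refine r3.cast ?_ (by simp only []; omega)
  funext r
  by_cases h0 : r = fr
  · subst h0; simp [hne.symm, hS r le_rfl]
  · by_cases h1 : r = dst
    · subst h1; simp [h0]
    · simp [h0, h1]

theorem case {c e t : α → Bits} (hc : PTR ea c) (he : PTR ea e) (hf : PTR ea f) (ht : PTR ea t) :
    PTR ea fun x => caseB (c x) (e x) (f x) (t x) := by
  have hl := hc.length_bd
  obtain ⟨T0, hT0, h0⟩ := hc
  obtain ⟨T1, hT1, h1⟩ := he
  obtain ⟨T2, hT2, h2⟩ := hf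
  obtain ⟨T3, hT3, h3⟩ := ht
  refine ⟨fun x => T0 x + T1 x + T2 x + T3 x + 2 * (c x).length + 4,
    ((((hT0.add hT1).add hT2).add hT3).add ((Bd.const 2).mul hl)).add (Bd.const 4),
    fun src dst fr a1 a2 a3 => ?_⟩
  obtain ⟨c0, hc0⟩ := h0 src fr (fr + 1) (by omega) (by omega) (by omega)
  obtain ⟨c1, hc1⟩ := h1 src dst (fr + 1) (by omega) (by omega) (by omega)
  obtain ⟨c2, hc2⟩ := h2 src dst (fr + 1) (by omega) (by omega) (by omega)
  obtain ⟨c3, hc3⟩ := h3 src dst (fr + 1) (by omega) (by omega) (by omega)
  refine ⟨.seq c0 (.seq (.case fr c1 c2 c3) (clear fr)), fun a S hx hS hd => ?_⟩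
  have hne : dst ≠ fr := by omega
  have hne' : src ≠ fr := by omega
  have r1 := hc0 a S hx (fun r hr => hS r (by omega)) (hS _ le_rfl)
  have hS' : ∀ r, fr + 1 ≤ r → update S fr (c a) r = [] := fun r hr => by
    have : r ≠ fr := by omega
    simp [this, hS r (by omega)]
  have hd' : update S fr (c a) dst = [] := by simp [hne, hd]
  have hx' : update S fr (c a) src = ea a := by simp [hne', hx]
  have r2 : Run (.case fr c1 c2 c3) (update S fr (c a))
      (update (update S fr (c a)) dst (caseB (c a) (e a) (f a) (t a)))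
      (T1 a + T2 a + T3 a + 1) := by
    rcases hy : c a with _ | ⟨_ | _, l⟩
    · rw [hy] at hS' hd' hx'
      exact (Run.caseE (by simp) (hc1 a _ hx' hS' hd')).cast (by simp [caseB]) (by omega)
    · rw [hy] at hS' hd' hx'
      exact (Run.caseF (by simp) (hc2 a _ hx' hS' hd')).cast (by simp [caseB]) (by omega)
    · rw [hy] at hS' hd' hx'
      exact (Run.caseT (by simp) (hc3 a _ hx' hS' hd')).cast (by simp [caseB]) (by omega)
  have r3 := r1.seq (r2.seq (run_clear fr (c a) _ (by simp [hne.symm])))
  refine r3.cast ?_ (by simp only []; omega)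
  funext r
  by_cases h0 : r = fr
  · subst h0; simp [hne.symm, hS r le_rfl]
  · by_cases h1 : r = dst
    · subst h1; simp [h0]
    · simp [h0, h1]

theorem pair (hf : PTR ea f) (hg : PTR ea g) : PTR ea fun x => delimit (f x) ++ g x := by
  have hl := hf.length_bd
  obtain ⟨T, hT, h⟩ := hf
  obtain ⟨U, hU, h'⟩ := hg
  refine ⟨fun x => T x + U x + 18 * (f x).length + 7,
    ((hT.add hU).add ((Bd.const 18).mul hl)).add (Bd.const 7),
    fun src dst fr h1 h2 h3 => ?_⟩
  obtain ⟨c, hc⟩ := h src fr (fr + 1) (by omega) (by omega) (by omega)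
  obtain ⟨c', hc'⟩ := h' src dst fr h1 h2 h3
  refine ⟨.seq c' (.seq (.push dst false) (.seq c (.seq (rev fr (fr + 1))
    (trans (fr + 1) dst fun x => [x, true])))), fun a S hx hS hd => ?_⟩
  have hne : dst ≠ fr := by omega
  have hne1 : dst ≠ fr + 1 := by omega
  have hne' : src ≠ fr := by omega
  have r1 := hc' a S hx hS hd
  have r2 := Run.push dst false (update S dst (g a))
  have r3 := hc a (update (update S dst (g a)) dst (false :: update S dst (g a) dst))
    (by simp [h3, hx]) (fun r hr => by
      have : r ≠ dst := by omega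
      simp [this, hS r (by omega)]) (by simp [hne.symm, hS _ le_rfl])
  have r := r1.seq (r2.seq (r3.seq ((run_rev fr (fr + 1) (by omega) _).seq
    (run_trans (fr + 1) dst hne1.symm (fun x => [x, true]) (by simp) _))))
  have e1 : S (fr + 1) = [] := hS _ (by omega)
  refine r.cast ?_ ?_
  · funext r
    by_cases h0 : r = dst
    · subst h0; simp [hne, hne1, hne1.symm, e1, delimit_eq]
    · by_cases h1 : r = fr + 1
      · subst h1; simp [h0, e1]
      · by_cases h2 : r = fr
        · subst h2; simp [h0, hS _ le_rfl]
        · simp [h0, h1, h2]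
  · simp [e1, hne1.symm]; omega

theorem append (hf : PTR ea f) (hg : PTR ea g) : PTR ea fun x => f x ++ g x := by
  have hl := hf.length_bd
  obtain ⟨T, hT, h⟩ := hf
  obtain ⟨U, hU, h'⟩ := hg
  refine ⟨fun x => T x + U x + 18 * (f x).length + 7,
    ((hT.add hU).add ((Bd.const 18).mul hl)).add (Bd.const 7),
    fun src dst fr h1 h2 h3 => ?_⟩
  obtain ⟨c, hc⟩ := h src fr (fr + 1) (by omega) (by omega) (by omega)
  obtain ⟨c', hc'⟩ := h' src dst fr h1 h2 h3
  refine ⟨.seq c' (.seq c (move fr dst (fr + 1))), fun a S hx hS hd => ?_⟩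
  have hne : dst ≠ fr := by omega
  have hne1 : dst ≠ fr + 1 := by omega
  have hne' : src ≠ fr := by omega
  have e1 : S (fr + 1) = [] := hS _ (by omega)
  have r1 := hc' a S hx hS hd
  have r3 := hc a (update S dst (g a))
    (by simp [h3, hx]) (fun r hr => by
      have : r ≠ dst := by omega
      simp [this, hS r (by omega)]) (by simp [hne.symm, hS _ le_rfl])
  have r := r1.seq (r3.seq (run_move fr dst (fr + 1) hne.symm (by omega) hne1 _
    (by simp [e1, hne1.symm])))
  refine r.cast ?_ ?_
  · funext r
    by_cases h0 : r = dst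
    · subst h0; simp [hne]
    · by_cases h2 : r = fr
      · subst h2; simp [h0, hS _ le_rfl]
      · simp [h0, h2]
  · simp; omega

theorem fst0 : PTR (fun x : Bits => x) ufst := by
  refine ⟨fun x => 35 * x.length + 20, ((Bd.const 35).mul Bd.self).add (Bd.const 20),
    fun src dst fr h1 h2 h3 => ⟨.seq (copy src fr (fr + 1)) (.seq (.push (fr + 2) true)
      (.seq (splitP fr (fr + 1) (fr + 2)) (.seq (clear fr) (rev (fr + 1) dst)))),
      fun a S hx hS hd => ?_⟩⟩
  subst hx
  have e0 : S fr = [] := hS _ le_rfl
  have e1 : S (fr + 1) = [] := hS _ (by omega)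
  have e2 : S (fr + 2) = [] := hS _ (by omega)
  have n0 : dst ≠ fr := by omega
  have n1 : dst ≠ fr + 1 := by omega
  have n2 : dst ≠ fr + 2 := by omega
  have r := (run_copy src fr (fr + 1) (by omega) (by omega) (by omega) S e1).seq
    ((Run.push (fr + 2) true _).seq
      ((run_splitP fr (fr + 1) (fr + 2) (by omega) (by omega) (by omega) (S src) _
        (by simp [e0]) (by simp [e2])).seq
      ((run_clear fr (usnd (S src)) _ (by simp)).seq (run_rev (fr + 1) dst n1.symm _))))
  refine r.cast ?_ ?_
  · funext r
    by_cases h0 : r = dst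
    · subst h0; simp [n0, n1, n2, e1, hd]
    · by_cases h1 : r = fr + 1
      · subst h1; simp [h0, e1]
      · by_cases h2 : r = fr
        · subst h2; simp [h0, e0]
        · by_cases h3 : r = fr + 2
          · subst h3; simp [h0, e2]
          · simp [h0, h1, h2, h3]
  · have := length_usnd_le (S src)
    have := length_ufst_le (S src)
    simp [e1]; omega

theorem snd0 : PTR (fun x : Bits => x) usnd := by
  refine ⟨fun x => 35 * x.length + 20, ((Bd.const 35).mul Bd.self).add (Bd.const 20),
    fun src dst fr h1 h2 h3 => ⟨.seq (copy src dst fr) (.seq (.push (fr + 1) true)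
      (.seq (splitP dst fr (fr + 1)) (clear fr))),
      fun a S hx hS hd => ?_⟩⟩
  subst hx
  have e0 : S fr = [] := hS _ le_rfl
  have e1 : S (fr + 1) = [] := hS _ (by omega)
  have n0 : dst ≠ fr := by omega
  have n1 : dst ≠ fr + 1 := by omega
  have r := (run_copy src dst fr h3 (by omega) n0 S e0).seq
    ((Run.push (fr + 1) true _).seq
      ((run_splitP dst fr (fr + 1) n0 n1 (by omega) (S src) _
        (by simp [hd, n1]) (by simp [e1, n1.symm])).seq
      (run_clear fr (ufst (S src)).reverse _ (by simp [e0, n0.symm]))))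
  refine r.cast ?_ ?_
  · funext r
    by_cases h0 : r = fr
    · subst h0; simp [n0.symm, e0]
    · by_cases h1 : r = dst
      · subst h1; simp [h0]
      · by_cases h2 : r = fr + 1
        · subst h2; simp [h1, e1]
        · simp [h0, h1, h2]
  · have := length_ufst_le (S src)
    simp; omega

theorem fst (hf : PTR ea f) : PTR ea fun a => ufst (f a) := fst0.comp hf
theorem snd (hf : PTR ea f) : PTR ea fun a => usnd (f a) := snd0.comp hf

theorem iterate {σ : Type} {es : σ → Bits} {st : σ → σ} {cnt : α → Bits} {init : α → σ}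
    (hs : PTR es fun s => es (st s)) (hc : PTR ea cnt) (hi : PTR ea fun a => es (init a))
    (B : α → ℕ) (hB : Bd (fun a => (ea a).length) B)
    (hb : ∀ x, ∀ k ≤ (cnt x).length, (es (st^[k] (init x))).length ≤ B x) :
    PTR ea fun x => es (st^[(cnt x).length] (init x)) := by
  have hl := hc.length_bd
  obtain ⟨T0, ⟨p, hp⟩, h0⟩ := hs
  obtain ⟨T1, hT1, h1⟩ := hc
  obtain ⟨T2, hT2, h2⟩ := hi
  refine ⟨fun x => T1 x + T2 x + (cnt x).length * (p.eval (B x) + 20 * B x + 10) + 3,
    ((hT1.add hT2).add (hl.mul (((hB.eval p).add ((Bd.const 20).mul hB)).add (Bd.const 10)))).add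
      (Bd.const 3), fun src dst fr a1 a2 a3 => ?_⟩
  obtain ⟨c0, hc0⟩ := h0 dst (fr + 1) (fr + 3) (by omega) (by omega) (by omega)
  obtain ⟨c1, hc1⟩ := h1 src fr (fr + 1) (by omega) (by omega) (by omega)
  obtain ⟨c2, hc2⟩ := h2 src dst fr a1 a2 a3
  have n0 : dst ≠ fr := by omega
  have n1 : dst ≠ fr + 1 := by omega
  have n2 : dst ≠ fr + 2 := by omega
  have key : ∀ (b : ℕ) (m : ℕ) (s : σ) (S : St), S dst = es s → (S fr).length = m →
      (∀ r, fr + 1 ≤ r → S r = []) → (∀ k ≤ m, (es (st^[k] s)).length ≤ b) →
      Run (.loop fr (.seq (.pop fr) (.seq c0 (.seq (clear dst) (move (fr + 1) dst (fr + 2)))))) S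
        (update (update S fr []) dst (es (st^[m] s))) (m * (p.eval b + 20 * b + 10) + 1) := by
    intro b m
    induction m with
    | zero =>
      intro s S hs hm _ _
      have hm' : S fr = [] := List.length_eq_zero_iff.1 hm
      refine (Run.loopE hm').cast ?_ (by simp)
      have : update S fr [] = S := by rw [← hm', update_eq_self]
      simp [this, ← hs]
    | succ m ih =>
      intro s S hs hm hS hb
      have e1 : S (fr + 1) = [] := hS _ le_rfl
      have e2 : S (fr + 2) = [] := hS _ (by omega)
      have hb0 : (es s).length ≤ b := hb 0 (by omega)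
      have hb1 : (es (st s)).length ≤ b := hb 1 (by omega)
      have r0 := hc0 s (update S fr (S fr).tail) (by simp [n0, hs]) (fun r hr => by
        have : r ≠ fr := by omega
        simp [this, hS r (by omega)]) (by simp [e1])
      have r1 : Run (.seq (.pop fr) (.seq c0 (.seq (clear dst) (move (fr + 1) dst (fr + 2))))) S
          (update (update S fr (S fr).tail) dst (es (st s))) (p.eval b + 20 * b + 8) := by
        refine ((Run.pop fr S).seq (r0.seq ((run_clear dst (es s) _ (by simp [n0, n1, hs])).seq
          (run_move (fr + 1) dst (fr + 2) n1.symm (by omega) n2 _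
            (by simp [n2.symm, e2]))))).cast ?_ ?_
        · funext r
          by_cases h0 : r = dst
          · subst h0; simp [n1.symm]
          · by_cases h1 : r = fr + 1
            · subst h1; simp [h0, e1]
            · simp [h0, h1, update_apply]
        · have := hp s
          have := eval_mono p hb0
          simp [n1.symm] at *; omega
      have r2 := ih (st s) (update (update S fr (S fr).tail) dst (es (st s))) (by simp)
        (by simp [n0.symm, hm]) (fun r hr => by
          have : r ≠ fr := by omega
          have : r ≠ dst := by omega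
          simp [*, hS r hr]) (fun k hk => by
          simpa using hb (k + 1) (by omega))
      refine (Run.loopN (by intro h; simp [h] at hm) r1 r2).cast ?_ (by nlinarith)
      funext r
      by_cases h0 : r = dst
      · subst h0; simp
      · simp [h0, update_apply]
        split_ifs <;> rfl
  refine ⟨.seq c2 (.seq c1 (.loop fr (.seq (.pop fr) (.seq c0 (.seq (clear dst)
    (move (fr + 1) dst (fr + 2))))))), fun a S hx hS hd => ?_⟩
  have r2 := hc2 a S hx hS hd
  have r1 := hc1 a (update S dst (es (init a))) (by simp [a3, hx]) (fun r hr => by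
    have : r ≠ dst := by omega
    simp [this, hS r (by omega)]) (by simp [n0.symm, hS _ le_rfl])
  have r3 := key (B a) (cnt a).length (init a)
    (update (update S dst (es (init a))) fr (cnt a)) (by simp [n0])
    (by simp) (fun r hr => by
      have : r ≠ fr := by omega
      have : r ≠ dst := by omega
      simp [*, hS r (by omega)]) (fun k hk => hb _ k hk)
  refine (r2.seq (r1.seq r3)).cast ?_ ?_
  · funext r
    by_cases h0 : r = dst
    · subst h0; simp
    · by_cases h1 : r = fr
      · subst h1; simp [h0, hS _ le_rfl]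
      · simp [h0, h1]
  · simp only []; omega

end PTR

end Pool.Agent.Lib.helper82
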