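import Mathlib

/-! A structured stack language with a step count, and its compilation to `FinTM2`. -/

namespace Pool.Agent.Lib.helper82

open Function Turing

abbrev Bits := List Bool
abbrev St := ℕ → Bits

inductive Prog
  | skip : Prog
  | push : ℕ → Bool → Prog
  | pop : ℕ → Prog
  | seq : Prog → Prog → Prog
  | case : ℕ → Prog → Prog → Prog → Prog
  | loop : ℕ → Prog → Prog

inductive Exec : Prog → St → St → ℕ → Prop
  | skip (S : St) : Exec .skip S S 1
  | push (r : ℕ) (b : Bool) (S : St) : Exec (.push r b) S (update S r (b :: S r)) 1
  | pop (r : ℕ) (S : St) : Exec (.pop r) S (update S r (S r).tail) 1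
  | seq {p q : Prog} {S S' S'' : St} {n m : ℕ} :
      Exec p S S' n → Exec q S' S'' m → Exec (.seq p q) S S'' (n + m + 1)
  | caseE {r : ℕ} {e f t : Prog} {S S' : St} {n : ℕ} :
      (S r).head? = none → Exec e S S' n → Exec (.case r e f t) S S' (n + 1)
  | caseF {r : ℕ} {e f t : Prog} {S S' : St} {n : ℕ} :
      (S r).head? = some false → Exec f S S' n → Exec (.case r e f t) S S' (n + 1)
  | caseT {r : ℕ} {e f t : Prog} {S S' : St} {n : ℕ} :
      (S r).head? = some true → Exec t S S' n → Exec (.case r e f t) S S' (n + 1)
  | loopE {r : ℕ} {b : Prog} {S : St} : S r = [] → Exec (.loop r b) S S 1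
  | loopN {r : ℕ} {b : Prog} {S S' S'' : St} {n m : ℕ} :
      S r ≠ [] → Exec b S S' n → Exec (.loop r b) S' S'' m → Exec (.loop r b) S S'' (n + m + 1)

theorem Exec.length_le {p : Prog} {S S' : St} {n : ℕ} (h : Exec p S S' n) (k : ℕ) :
    (S' k).length ≤ (S k).length + n := by
  induction h with
  | skip S => omega
  | push r b S => by_cases hk : k = r <;> simp [hk]
  | pop r S => by_cases hk : k = r <;> simp [hk]; omega
  | seq _ _ ih1 ih2 => omega
  | caseE _ _ ih => omega
  | caseF _ _ ih => omega
  | caseT _ _ ih => omega
  | loopE _ => omega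
  | loopN _ _ _ ih1 ih2 => omega

/-- One more than the largest register named in the program. -/
def Prog.regs : Prog → ℕ
  | .skip => 0
  | .push r _ => r + 1
  | .pop r => r + 1
  | .seq p q => max p.regs q.regs
  | .case r e f t => max (r + 1) (max e.regs (max f.regs t.regs))
  | .loop r b => max (r + 1) b.regs

/-- The continuations visited while running `p` under continuation `k`. -/
def Prog.labels : Prog → List Prog → List (List Prog)
  | .skip, k => [.skip :: k]
  | .push r b, k => [.push r b :: k]
  | .pop r, k => [.pop r :: k]
  | .seq p q, k => (.seq p q :: k) :: (p.labels (q :: k) ++ q.labels k)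
  | .case r e f t, k => (.case r e f t :: k) :: (e.labels k ++ f.labels k ++ t.labels k)
  | .loop r b, k => (.loop r b :: k) :: b.labels (.loop r b :: k)

theorem Prog.self_mem_labels (p : Prog) (k : List Prog) : (p :: k) ∈ p.labels k := by
  cases p <;> simp [Prog.labels]

section Compile

variable (N : ℕ) (L : List (List Prog))

/-- Labels of the compiled machine. -/
def Lab : Type := Option {k : List Prog // k ∈ L}

noncomputable instance : Fintype (Lab L) := by
  classical
  unfold Lab
  exact Fintype.ofFinite _

open Classical in
noncomputable def toLab (k : List Prog) : Lab L := if h : k ∈ L then some ⟨k, h⟩ else none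

def toK (r : ℕ) : Fin (N + 2) := if h : r < N + 2 then ⟨r, h⟩ else 0

abbrev CStmt := TM2.Stmt (fun _ : Fin (N + 2) => Bool) (Lab L) (Option Bool)

noncomputable def jump (k : List Prog) : CStmt N L :=
  .load (fun _ => none) (.goto fun _ => toLab L k)

noncomputable def stmtOf : List Prog → CStmt N L
  | [] => .halt
  | .skip :: k => jump N L k
  | .push r b :: k => .push (toK N r) (fun _ => b) (jump N L k)
  | .pop r :: k => .pop (toK N r) (fun _ _ => none) (jump N L k)
  | .seq p q :: k => jump N L (p :: q :: k)
  | .case r e f t :: k => .peek (toK N r) (fun _ x => x)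
      (.branch (fun v => v.isNone) (jump N L (e :: k))
        (.branch (fun v => v == some false) (jump N L (f :: k)) (jump N L (t :: k))))
  | .loop r b :: k => .peek (toK N r) (fun _ x => x)
      (.branch (fun v => v.isNone) (jump N L k) (jump N L (b :: .loop r b :: k)))

noncomputable def machine : Lab L → CStmt N L
  | none => .halt
  | some k => stmtOf N L k.1

def restr (S : St) : Fin (N + 2) → Bits := fun k => S k

abbrev CCfg := TM2.Cfg (fun _ : Fin (N + 2) => Bool) (Lab L) (Option Bool)

noncomputable def cfg (k : List Prog) (S : St) : CCfg N L := ⟨some (toLab L k), none, restr N S⟩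

theorem machine_toLab (k : List Prog) (h : k ∈ L) : machine N L (toLab L k) = stmtOf N L k := by
  simp [toLab, h, machine]

theorem restr_update (S : St) (r : ℕ) (hr : r < N + 2) (v : Bits) :
    restr N (update S r v) = update (restr N S) (toK N r) v := by
  funext k
  simp only [restr, toK, hr, dif_pos, update_apply, Fin.ext_iff]

theorem restr_toK (S : St) (r : ℕ) (hr : r < N + 2) : restr N S (toK N r) = S r := by
  simp [restr, toK, hr]

theorem step_cfg (k : List Prog) (h : k ∈ L) (S : St) :
    TM2.step (machine N L) (cfg N L k S) =
      some (TM2.stepAux (stmtOf N L k) none (restr N S)) := by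
  simp [cfg, machine_toLab N L k h]

theorem stepAux_jump (k : List Prog) (v : Option Bool) (S : St) :
    TM2.stepAux (jump N L k) v (restr N S) = cfg N L k S := by
  simp [jump, cfg]

abbrev Steps (n : ℕ) (a b : CCfg N L) : Prop :=
  (flip bind (TM2.step (machine N L)))^[n] (some a) = some b

theorem steps_one {a b : CCfg N L} (h : TM2.step (machine N L) a = some b) : Steps N L 1 a b := by
  simpa [Steps, flip] using h

theorem steps_trans {n m : ℕ} {a b c : CCfg N L} (h1 : Steps N L n a b) (h2 : Steps N L m b c) :
    Steps N L (n + m) a c := by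
  unfold Steps at *
  rw [add_comm n m, Function.iterate_add_apply, h1, h2]

theorem steps_cast {n m : ℕ} {a b : CCfg N L} (h : Steps N L n a b) (e : n = m) :
    Steps N L m a b := e ▸ h

theorem Exec.sim {p : Prog} {S S' : St} {n : ℕ} (h : Exec p S S' n) :
    ∀ k : List Prog, p.regs ≤ N + 2 → (∀ l ∈ p.labels k, l ∈ L) →
      Steps N L n (cfg N L (p :: k) S) (cfg N L k S') := by
  induction h with
  | skip S =>
    intro k _ hL
    apply steps_one
    rw [step_cfg N L _ (hL _ (Prog.self_mem_labels _ _))]
    simp [stmtOf, stepAux_jump]
  | push r b S =>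
    intro k hr hL
    apply steps_one
    rw [step_cfg N L _ (hL _ (Prog.self_mem_labels _ _))]
    have hr' : r < N + 2 := hr
    simp only [stmtOf, TM2.stepAux]
    rw [restr_toK N S r hr', ← restr_update N S r hr', stepAux_jump]
  | pop r S =>
    intro k hr hL
    apply steps_one
    rw [step_cfg N L _ (hL _ (Prog.self_mem_labels _ _))]
    have hr' : r < N + 2 := hr
    simp only [stmtOf, TM2.stepAux]
    rw [restr_toK N S r hr', ← restr_update N S r hr', stepAux_jump]
  | @seq p q S S' S'' n m _ _ ih1 ih2 =>
    intro k hr hL
    simp only [Prog.regs, max_le_iff] at hr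
    have h0 : Steps N L 1 (cfg N L (.seq p q :: k) S) (cfg N L (p :: q :: k) S) := by
      apply steps_one
      rw [step_cfg N L _ (hL _ (Prog.self_mem_labels _ _))]
      simp [stmtOf, stepAux_jump]
    have h1 := ih1 (q :: k) hr.1 fun l hl => hL l (by simp [Prog.labels, hl])
    have h2 := ih2 k hr.2 fun l hl => hL l (by simp [Prog.labels, hl])
    exact steps_cast N L (steps_trans N L h0 (steps_trans N L h1 h2)) (by omega)
  | @caseE r e f t S S' n hh _ ih =>
    intro k hr hL
    simp only [Prog.regs, max_le_iff] at hr
    have h0 : Steps N L 1 (cfg N L (.case r e f t :: k) S) (cfg N L (e :: k) S) := by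
      apply steps_one
      rw [step_cfg N L _ (hL _ (Prog.self_mem_labels _ _))]
      simp [stmtOf, stepAux_jump, restr_toK N S r hr.1, hh]
    have h1 := ih k hr.2.1 fun l hl => hL l (by simp [Prog.labels, hl])
    exact steps_cast N L (steps_trans N L h0 h1) (by omega)
  | @caseF r e f t S S' n hh _ ih =>
    intro k hr hL
    simp only [Prog.regs, max_le_iff] at hr
    have h0 : Steps N L 1 (cfg N L (.case r e f t :: k) S) (cfg N L (f :: k) S) := by
      apply steps_one
      rw [step_cfg N L _ (hL _ (Prog.self_mem_labels _ _))]
      simp [stmtOf, stepAux_jump, restr_toK N S r hr.1, hh]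
    have h1 := ih k hr.2.2.1 fun l hl => hL l (by simp [Prog.labels, hl])
    exact steps_cast N L (steps_trans N L h0 h1) (by omega)
  | @caseT r e f t S S' n hh _ ih =>
    intro k hr hL
    simp only [Prog.regs, max_le_iff] at hr
    have h0 : Steps N L 1 (cfg N L (.case r e f t :: k) S) (cfg N L (t :: k) S) := by
      apply steps_one
      rw [step_cfg N L _ (hL _ (Prog.self_mem_labels _ _))]
      simp [stmtOf, stepAux_jump, restr_toK N S r hr.1, hh]
    have h1 := ih k hr.2.2.2 fun l hl => hL l (by simp [Prog.labels, hl])
    exact steps_cast N L (steps_trans N L h0 h1) (by omega)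
  | @loopE r b S hh =>
    intro k hr hL
    simp only [Prog.regs, max_le_iff] at hr
    apply steps_one
    rw [step_cfg N L _ (hL _ (Prog.self_mem_labels _ _))]
    simp [stmtOf, stepAux_jump, restr_toK N S r hr.1, hh]
  | @loopN r b S S' S'' n m hh _ _ ih1 ih2 =>
    intro k hr hL
    have hr0 := hr
    simp only [Prog.regs, max_le_iff] at hr
    have h0 : Steps N L 1 (cfg N L (.loop r b :: k) S) (cfg N L (b :: .loop r b :: k) S) := by
      apply steps_one
      rw [step_cfg N L _ (hL _ (Prog.self_mem_labels _ _))]
      obtain ⟨x, l, hx⟩ := List.exists_cons_of_ne_nil hh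
      simp [stmtOf, stepAux_jump, restr_toK N S r hr.1, hx]
    have h1 := ih1 (.loop r b :: k) hr.2 fun l hl => hL l (by simp [Prog.labels, hl])
    have h2 := ih2 k hr0 hL
    exact steps_cast N L (steps_trans N L h0 (steps_trans N L h1 h2)) (by omega)

end Compile

/-- The machine compiled from `P`: input on stack `0`, output on stack `1`. -/
noncomputable def compile (P : Prog) : FinTM2 where
  K := Fin (P.regs + 2)
  k₀ := 0
  k₁ := 1
  Γ _ := Bool
  Λ := Lab ([] :: P.labels [])
  main := toLab _ [P]
  σ := Option Bool
  initialState := none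
  m := machine P.regs ([] :: P.labels [])

theorem compile_outputs (P : Prog) (x y : Bits) (n : ℕ)
    (h : Exec P (update (fun _ => []) 0 x) (update (fun _ => []) 1 y) n) :
    (flip bind (compile P).step)^[n + 1] (some (initList (compile P) x)) =
      some (haltList (compile P) y) := by
  have h1 := h.sim P.regs ([] :: P.labels []) [] (by omega) (fun l hl => List.mem_cons_of_mem _ hl)
  have e0 : initList (compile P) x =
      cfg P.regs ([] :: P.labels []) [P] (update (fun _ => []) 0 x) := by
    simp only [initList, cfg, compile]
    congr 1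
    funext k
    by_cases hk : k = 0
    · subst hk; simp [restr]
    · have : (k : ℕ) ≠ 0 := fun h => hk (Fin.ext h)
      simp [restr, hk, this]
  have h2 : Steps P.regs ([] :: P.labels []) 1
      (cfg P.regs ([] :: P.labels []) [] (update (fun _ => []) 1 y)) (haltList (compile P) y) := by
    apply steps_one
    rw [step_cfg _ _ _ (List.mem_cons_self)]
    simp only [stmtOf, TM2.stepAux, haltList, compile]
    congr 2
    funext k
    by_cases hk : k = 1
    · subst hk; simp [restr]
    · have : (k : ℕ) ≠ 1 := fun h => hk (Fin.ext (by simpa using h))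
      simp [restr, hk, this]
  rw [e0]
  exact steps_trans _ _ h1 h2

/-- A program that maps every input to the value of `f` within polynomially many steps gives
a polynomial time machine in the sense of Mathlib. -/
theorem tm2_of_prog {α β : Type} (ea : α → Bits) (eb : β → Bits) (f : α → β) (P : Prog)
    (T : Polynomial ℕ)
    (h : ∀ a, ∃ n ≤ T.eval (ea a).length,
      Exec P (update (fun _ => []) 0 (ea a)) (update (fun _ => []) 1 (eb (f a))) n) :
    Nonempty (TM2ComputableInPolyTime ea eb f) := by
  choose n hn hE using h
  refine ⟨{ tm := compile P, inputAlphabet := Equiv.refl _, outputAlphabet := Equiv.refl _,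
            time := T + 1, outputsFun := fun a => ⟨⟨n a + 1, ?_⟩, ?_⟩ }⟩
  · have := compile_outputs P (ea a) (eb (f a)) (n a) (hE a)
    have e : ∀ l : Bits, List.map (Equiv.refl Bool).invFun l = l := fun l => by simp
    have key : ∀ u v : Bits, u = ea a → v = eb (f a) → (flip bind (compile P).step)^[n a + 1]
        (some (initList (compile P) u)) = some (haltList (compile P) v) := by
      rintro u v rfl rfl
      exact this
    exact key _ _ (e _) (e _)
  · simpa using hn a

end Pool.Agent.Lib.helper82
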